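import Mathlib
import Pool.Agent.NarrowFew.RankOne

/-! A basis of the group generated by finitely many complex numbers, if it is torsion free. -/

set_option autoImplicit false

open Filter Topology

namespace Pool.Agent.F1

open NarrowFew

/-- the relations -/
noncomputable def relMod {m : ℕ} (γ : Fin m → ℂ) (h0 : ∀ i, γ i ≠ 0) : Submodule ℤ (Fin m → ℤ) where
  carrier := {g | chi g γ = 1}
  add_mem' := by
    intro a b ha hb
    have h := chi_comb a b 1 1 γ h0
    simp only [one_mul, zpow_one] at h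
    change chi (a + b) γ = 1
    rw [show a + b = fun i => a i + b i from rfl, h, ha, hb, one_mul]
  zero_mem' := by
    change chi 0 γ = 1
    simp [chi]
  smul_mem' := by
    intro c x hx
    have h := chi_comb x 0 c 0 γ h0
    simp only [Pi.zero_apply, mul_zero, add_zero, zpow_zero, mul_one] at h
    change chi (c • x) γ = 1
    rw [show c • x = fun i => c * x i from rfl, h, hx, one_zpow]

lemma mem_relMod {m : ℕ} (γ : Fin m → ℂ) (h0 : ∀ i, γ i ≠ 0) (g : Fin m → ℤ) :
    g ∈ relMod γ h0 ↔ chi g γ = 1 := Iff.rfl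

lemma chi_sum {m r : ℕ} (γ : Fin m → ℂ) (h0 : ∀ i, γ i ≠ 0) (n : Fin r → ℤ)
    (G : Fin r → Fin m → ℤ) : chi (∑ j, n j • G j) γ = ∏ j, chi (G j) γ ^ n j := by
  unfold chi
  simp only [← Finset.prod_zpow]
  rw [Finset.prod_comm]
  refine Finset.prod_congr rfl fun i _ => ?_
  have : ∀ s : Finset (Fin r), γ i ^ ((∑ j ∈ s, n j • G j) i) = ∏ j ∈ s, (γ i ^ G j i) ^ n j := by
    classical
    intro s
    induction s using Finset.induction_on with
    | empty => simp
    | insert a s ha ih =>
      rw [Finset.sum_insert ha, Finset.prod_insert ha, Pi.add_apply, zpow_add₀ (h0 i), ih,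
        Pi.smul_apply, smul_eq_mul, mul_comm (n a), zpow_mul]
  exact this Finset.univ

lemma chi_add {m : ℕ} (γ : Fin m → ℂ) (h0 : ∀ i, γ i ≠ 0) (a b : Fin m → ℤ) :
    chi (a + b) γ = chi a γ * chi b γ := by
  have h := chi_comb a b 1 1 γ h0
  simp only [one_mul, zpow_one] at h
  rw [show a + b = fun i => a i + b i from rfl, h]

lemma chi_smul {m : ℕ} (γ : Fin m → ℂ) (h0 : ∀ i, γ i ≠ 0) (c : ℤ) (a : Fin m → ℤ) :
    chi (c • a) γ = chi a γ ^ c := by
  have h := chi_comb a 0 c 0 γ h0
  simp only [Pi.zero_apply, mul_zero, add_zero, zpow_zero, mul_one] at h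
  rw [show c • a = fun i => c * a i from rfl, h]

lemma chi_single {m : ℕ} (γ : Fin m → ℂ) (i : Fin m) (a : ℤ) :
    chi (Pi.single i a) γ = γ i ^ a := by
  classical
  unfold chi
  rw [Finset.prod_eq_single i]
  · rw [Pi.single_eq_same]
  · intro j _ hj
    rw [Pi.single_eq_of_ne hj, zpow_zero]
  · intro h; exact absurd (Finset.mem_univ i) h

lemma norm_chi {m : ℕ} (γ : Fin m → ℂ) (h1 : ∀ i, ‖γ i‖ = 1) (g : Fin m → ℤ) :
    ‖chi g γ‖ = 1 := by
  unfold chi
  rw [norm_prod]
  refine Finset.prod_eq_one fun i _ => ?_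
  rw [norm_zpow, h1, one_zpow]

/-- A basis of the group generated by the `γ i`. -/
theorem exists_basis {m : ℕ} (γ : Fin m → ℂ) (h1 : ∀ i, ‖γ i‖ = 1)
    (htf : ∀ g : Fin m → ℤ, Tor (chi g γ) → chi g γ = 1) :
    ∃ (r : ℕ) (x : Fin r → ℂ) (P : Fin m → Fin r → ℤ), (∀ j, ‖x j‖ = 1) ∧
      (∀ i, γ i = ∏ j, x j ^ P i j) ∧ (∀ n : Fin r → ℤ, ∏ j, x j ^ n j = 1 → n = 0) ∧
      (m ≤ r + 1 → ∀ g h : Fin m → ℤ, chi g γ = 1 → chi h γ = 1 →
        ∀ i j, g i * h j = g j * h i) := by
  classical
  have h0 : ∀ i, γ i ≠ 0 := fun i h => by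
    have := h1 i
    rw [h, norm_zero] at this
    exact zero_ne_one this
  set R := relMod γ h0 with hR
  have htors : Module.IsTorsionFree ℤ ((Fin m → ℤ) ⧸ R) := by
    refine Module.IsTorsionFree.of_smul_eq_zero fun n q hq => ?_
    obtain ⟨g, rfl⟩ := Submodule.mkQ_surjective R q
    rw [← map_smul, Submodule.mkQ_apply, Submodule.Quotient.mk_eq_zero, mem_relMod,
      chi_smul γ h0] at hq
    rcases eq_or_ne n 0 with hn | hn
    · exact Or.inl hn
    · right
      rw [Submodule.mkQ_apply, Submodule.Quotient.mk_eq_zero, mem_relMod]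
      apply htf
      refine Tor.of_zpow hn ?_
      rw [hq]
      exact ⟨1, one_pos, by simp⟩
  have hfree : Module.Free ℤ ((Fin m → ℤ) ⧸ R) := Module.free_of_finite_type_torsion_free'
  set r := Module.finrank ℤ ((Fin m → ℤ) ⧸ R) with hr
  let b : Module.Basis (Fin r) ℤ ((Fin m → ℤ) ⧸ R) := Module.finBasis ℤ ((Fin m → ℤ) ⧸ R)
  have hlift : ∀ j : Fin r, ∃ g : Fin m → ℤ, R.mkQ g = b j := fun j =>
    Submodule.mkQ_surjective R (b j)
  choose G hG using hlift
  refine ⟨r, fun j => chi (G j) γ, fun i j => b.repr (R.mkQ (Pi.single i 1)) j,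
    fun j => norm_chi γ h1 _, fun i => ?_, fun n hn => ?_, fun hm g h hg hh i j => ?_⟩
  · have e1 : R.mkQ (Pi.single i 1) =
        R.mkQ (∑ j, (b.repr (R.mkQ (Pi.single i 1)) j) • G j) := by
      rw [map_sum]
      conv_lhs => rw [← b.sum_repr (R.mkQ (Pi.single i 1))]
      refine Finset.sum_congr rfl fun j _ => ?_
      rw [map_smul, hG]
    rw [← chi_sum γ h0]
    rw [← sub_eq_zero, ← map_sub, Submodule.mkQ_apply, Submodule.Quotient.mk_eq_zero,
      mem_relMod, sub_eq_add_neg, chi_add γ h0, ← neg_one_smul ℤ (∑ j, _ • G j),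
      chi_smul γ h0, chi_single, zpow_one, zpow_neg_one] at e1
    exact (mul_inv_eq_one₀ (fun h => by
      have := norm_chi γ h1 (∑ j, (b.repr (R.mkQ (Pi.single i 1)) j) • G j)
      rw [h, norm_zero] at this
      exact zero_ne_one this)).1 e1
  · have e1 : R.mkQ (∑ j, n j • G j) = 0 := by
      rw [Submodule.mkQ_apply, Submodule.Quotient.mk_eq_zero, mem_relMod, chi_sum γ h0]
      exact hn
    rw [map_sum] at e1
    simp only [map_smul, hG] at e1
    funext j
    exact (Fintype.linearIndependent_iff.1 b.linearIndependent) n e1 j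
  · by_contra hne
    have hli : LinearIndependent ℤ ![(⟨g, hg⟩ : R), ⟨h, hh⟩] := by
      rw [LinearIndependent.pair_iff]
      intro s t hst
      have e1 : ∀ i, s * g i + t * h i = 0 := by
        intro i
        have := congrArg (fun z : R => (z : Fin m → ℤ) i) hst
        simpa using this
      have e2 := e1 i
      have e3 := e1 j
      have e4 : s * (g i * h j - g j * h i) = 0 := by linear_combination h j * e2 - h i * e3
      have e5 : t * (g i * h j - g j * h i) = 0 := by linear_combination g i * e3 - g j * e2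
      have e6 : g i * h j - g j * h i ≠ 0 := sub_ne_zero.2 hne
      exact ⟨(mul_eq_zero.1 e4).resolve_right e6, (mul_eq_zero.1 e5).resolve_right e6⟩
    have h2 := hli.fintype_card_le_finrank
    rw [Fintype.card_fin] at h2
    have h3 := Submodule.finrank_quotient_add_finrank R
    rw [Module.finrank_fin_fun] at h3
    omega

end Pool.Agent.F1
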