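import Mathlib
import Pool.Agent.F1.Basis
import Pool.Agent.NarrowFew.Seq

/-! The plane case: the group generated by the quotients of the roots has rank two. -/

set_option autoImplicit false

open Filter Topology

namespace Pool.Agent.F1

open NarrowFew

/-- monomials in two variables -/
noncomputable def mon (x y : ℂ) (m : ℤ × ℤ) : ℂ := x ^ m.1 * y ^ m.2

/-- The classification of the nonnegative trigonometric polynomials in two variables with at most
nine terms. -/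
def PlaneThm : Prop :=
  ∀ (S : Finset (ℤ × ℤ)) (C : ℤ × ℤ → ℂ), (∀ m, m ∈ S ↔ C m ≠ 0) →
    (∀ m, C (-m) = (starRingEnd ℂ) (C m)) → (0 : ℤ × ℤ) ∈ S → S.card ≤ 9 →
    (∃ m ∈ S, m ≠ 0) →
    (∀ x y : ℂ, ‖x‖ = 1 → ‖y‖ = 1 → 0 ≤ (∑ m ∈ S, C m * mon x y m).re) →
    (∃ m ∈ S, ∃ m' ∈ S, m ≠ m' ∧ {w : ℂ | ∃ x y : ℂ, ‖x‖ = 1 ∧ ‖y‖ = 1 ∧
      ∑ m ∈ S, C m * mon x y m = 0 ∧ mon x y (m - m') = w}.Finite) ∨
    ∃ (a b : ℤ × ℤ) (al be : ℂ), a.1 * b.2 - a.2 * b.1 ≠ 0 ∧ al ≠ 0 ∧ be ≠ 0 ∧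
      C (a + b) = al ^ 2 ∧ C (a - b) = be ^ 2 ∧ C a = 2 * al * be ∧
      C b = 2 * al * (starRingEnd ℂ) be ∧
      C 0 = 2 * (al * (starRingEnd ℂ) al) + 2 * (be * (starRingEnd ℂ) be) ∧
      ∀ m ∈ S, ∃ s ∈ Finset.Icc (-1 : ℤ) 1, ∃ t ∈ Finset.Icc (-1 : ℤ) 1, m = s • a + t • b

lemma mon_add {x y : ℂ} (hx : x ≠ 0) (hy : y ≠ 0) (a b : ℤ × ℤ) :
    mon x y (a + b) = mon x y a * mon x y b := by
  unfold mon
  rw [Prod.fst_add, Prod.snd_add, zpow_add₀ hx, zpow_add₀ hy]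
  ring

lemma mon_smul (x y : ℂ) (n : ℤ) (a : ℤ × ℤ) : mon x y (n • a) = mon x y a ^ n := by
  unfold mon
  rw [Prod.smul_fst, Prod.smul_snd, smul_eq_mul, smul_eq_mul, mul_comm n, mul_comm n, zpow_mul,
    zpow_mul, mul_zpow]

lemma mon_zero (x y : ℂ) : mon x y 0 = 1 := by simp [mon]

lemma mon_neg (x y : ℂ) (a : ℤ × ℤ) : mon x y (-a) = (mon x y a)⁻¹ := by
  rw [← neg_one_smul ℤ a, mon_smul, zpow_neg_one]

lemma norm_mon {x y : ℂ} (hx : ‖x‖ = 1) (hy : ‖y‖ = 1) (a : ℤ × ℤ) : ‖mon x y a‖ = 1 := by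
  unfold mon
  rw [norm_mul, norm_zpow, norm_zpow, hx, hy, one_zpow, one_zpow, one_mul]

lemma mon_pow (x y : ℂ) (n : ℕ) (a : ℤ × ℤ) : mon (x ^ n) (y ^ n) a = mon x y a ^ n := by
  unfold mon
  rw [mul_pow, ← zpow_natCast, ← zpow_natCast, ← zpow_natCast, ← zpow_natCast, ← zpow_mul,
    ← zpow_mul, ← zpow_mul, ← zpow_mul, mul_comm a.1, mul_comm a.2]

lemma ne_of_norm {x : ℂ} (hx : ‖x‖ = 1) : x ≠ 0 := by
  intro h
  rw [h, norm_zero] at hx
  exact zero_ne_one hx

lemma conj_of_norm {x : ℂ} (hx : ‖x‖ = 1) : (starRingEnd ℂ) x = x⁻¹ := by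
  have h : x * (starRingEnd ℂ) x = 1 := by
    rw [Complex.mul_conj, Complex.normSq_eq_norm_sq, hx]; simp
  exact (eq_inv_of_mul_eq_one_right h)

lemma mon_sum {m : ℕ} {x y : ℂ} (hx : x ≠ 0) (hy : y ≠ 0) (g : Fin m → ℤ) (Q : Fin m → ℤ × ℤ) :
    chi g (fun i => mon x y (Q i)) = mon x y (∑ i, g i • Q i) := by
  classical
  unfold chi
  have : ∀ s : Finset (Fin m), ∏ i ∈ s, mon x y (Q i) ^ g i = mon x y (∑ i ∈ s, g i • Q i) := by
    intro s
    induction s using Finset.induction_on with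
    | empty => simp [mon]
    | insert a s ha ih =>
      rw [Finset.sum_insert ha, Finset.prod_insert ha, ih, mon_add hx hy, mon_smul]
  exact this Finset.univ

lemma mon_tendsto {x y : ℂ} (hx : x ≠ 0) (hy : y ≠ 0) {X Y : ℕ → ℂ}
    (hX : Tendsto X atTop (𝓝 x)) (hY : Tendsto Y atTop (𝓝 y)) (a : ℤ × ℤ) :
    Tendsto (fun n => mon (X n) (Y n) a) atTop (𝓝 (mon x y a)) := by
  unfold mon
  exact (hX.zpow₀ _ (Or.inl hx)).mul (hY.zpow₀ _ (Or.inl hy))

/-- Kronecker's theorem for two independent numbers, with a sequence. -/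
lemma exists_seq {x0 y0 : ℂ} (hx0 : ‖x0‖ = 1) (hy0 : ‖y0‖ = 1)
    (hind : ∀ a b : ℤ, x0 ^ a * y0 ^ b = 1 → a = 0 ∧ b = 0) {x y : ℂ} (hx : ‖x‖ = 1)
    (hy : ‖y‖ = 1) : ∃ φ : ℕ → ℕ, (∀ k, k ≤ φ k) ∧ Tendsto (fun k => x0 ^ φ k) atTop (𝓝 x) ∧
      Tendsto (fun k => y0 ^ φ k) atTop (𝓝 y) := by
  have key : ∀ k : ℕ, ∃ n : ℕ, k ≤ n ∧ ‖x0 ^ n - x‖ < 1 / ((k : ℝ) + 1) ∧
      ‖y0 ^ n - y‖ < 1 / ((k : ℝ) + 1) := by
    intro k
    obtain ⟨n, hn, h⟩ := DD7719.kronecker ![x0, y0] ![x, y] (by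
      intro i; fin_cases i <;> simp [hx0, hy0]) (by
      intro i; fin_cases i <;> simp [hx, hy]) (by
      rintro g ⟨n, hn, h⟩
      rw [Fin.prod_univ_two] at h
      simp only [Matrix.cons_val_zero, Matrix.cons_val_one] at h
      have h1 : x0 ^ (g 0 * n) * y0 ^ (g 1 * n) = 1 := by
        rw [zpow_mul, zpow_mul, zpow_natCast, zpow_natCast, ← mul_pow]
        exact h
      obtain ⟨h2, h3⟩ := hind _ _ h1
      have hn' : (n : ℤ) ≠ 0 := by exact_mod_cast hn.ne'
      have h4 : g 0 = 0 := (mul_eq_zero.1 h2).resolve_right hn'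
      have h5 : g 1 = 0 := (mul_eq_zero.1 h3).resolve_right hn'
      rw [Fin.prod_univ_two, h4, h5]
      simp) 1 one_pos k (1 / ((k : ℝ) + 1)) (by positivity)
    refine ⟨n, hn, ?_, ?_⟩
    · simpa using h 0
    · simpa using h 1
  choose φ hφ h1 h2 using key
  refine ⟨φ, hφ, ?_, ?_⟩
  · rw [tendsto_iff_norm_sub_tendsto_zero]
    exact squeeze_zero (fun _ => norm_nonneg _) (fun k => (h1 k).le)
      tendsto_one_div_add_atTop_nhds_zero_nat
  · rw [tendsto_iff_norm_sub_tendsto_zero]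
    exact squeeze_zero (fun _ => norm_nonneg _) (fun k => (h2 k).le)
      tendsto_one_div_add_atTop_nhds_zero_nat

lemma limPt_of_tendsto {m : ℕ} {γ z : Fin m → ℂ} {φ : ℕ → ℕ} (hφ : ∀ k, k ≤ φ k)
    (h : ∀ i, Tendsto (fun k => γ i ^ φ k) atTop (𝓝 (z i))) : LimPt γ z := by
  intro N ε hε
  have h1 : ∀ᶠ k in atTop, ∀ i, ‖γ i ^ φ k - z i‖ < ε := by
    rw [eventually_all]
    intro i
    have := Metric.tendsto_nhds.1 (h i) ε hε
    simpa [dist_eq_norm] using this
  obtain ⟨k, h2, h3⟩ := (h1.and (eventually_ge_atTop N)).exists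
  exact ⟨φ k, h3.trans (hφ k), h2⟩

lemma tendsto_of_limPt {m : ℕ} {γ z : Fin m → ℂ} (h : LimPt γ z) :
    ∃ φ : ℕ → ℕ, (∀ k, k ≤ φ k) ∧ ∀ i, Tendsto (fun k => γ i ^ φ k) atTop (𝓝 (z i)) := by
  have key : ∀ k : ℕ, ∃ n : ℕ, k ≤ n ∧ ∀ i, ‖γ i ^ n - z i‖ < 1 / ((k : ℝ) + 1) :=
    fun k => h k _ (by positivity)
  choose φ hφ h1 using key
  refine ⟨φ, hφ, fun i => ?_⟩
  rw [tendsto_iff_norm_sub_tendsto_zero]
  exact squeeze_zero (fun _ => norm_nonneg _) (fun k => (h1 k i).le)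
    tendsto_one_div_add_atTop_nhds_zero_nat

/-- exponent vectors of the monomials `1`, `z i`, `(z i)⁻¹` -/
def IsMono {m : ℕ} (g : Fin m → ℤ) : Prop :=
  g = 0 ∨ ∃ i, g = Pi.single i 1 ∨ g = -Pi.single i 1

/-- nine terms -/
lemma nine_terms (al be s t : ℂ) (hs : ‖s‖ = 1) (ht : ‖t‖ = 1) :
    ((((2 * al) * (s * t)).re + ((2 * be) * (s * t⁻¹)).re : ℝ) : ℂ) ^ 2 =
      2 * (al * (starRingEnd ℂ) al) + 2 * (be * (starRingEnd ℂ) be) +
      (al ^ 2 * (s ^ 2 * t ^ 2) + (starRingEnd ℂ) al ^ 2 * ((s ^ 2)⁻¹ * (t ^ 2)⁻¹)) +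
      (be ^ 2 * (s ^ 2 * (t ^ 2)⁻¹) + (starRingEnd ℂ) be ^ 2 * ((s ^ 2)⁻¹ * t ^ 2)) +
      (2 * al * be * s ^ 2 + 2 * (starRingEnd ℂ) al * (starRingEnd ℂ) be * (s ^ 2)⁻¹) +
      (2 * al * (starRingEnd ℂ) be * t ^ 2 + 2 * (starRingEnd ℂ) al * be * (t ^ 2)⁻¹) := by
  have hs0 := ne_of_norm hs
  have ht0 := ne_of_norm ht
  have hre : ∀ z : ℂ, ((z.re : ℝ) : ℂ) = (z + (starRingEnd ℂ) z) / 2 := by
    intro z
    rw [Complex.add_conj]; push_cast; ring
  rw [Complex.ofReal_add, hre, hre]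
  simp only [map_mul, map_inv₀, conj_of_norm hs, conj_of_norm ht, map_ofNat, inv_inv]
  field_simp
  ring

theorem plane_case (H : PlaneThm) {m : ℕ} (hm : m ≤ 4) (hm0 : 0 < m) {c0 : ℝ} (hc0 : 0 < c0)
    {c γ : Fin m → ℂ} (hγ : Good γ) (hc : ∀ i, c i ≠ 0) (hF : AsNonneg c0 c γ) (x : Fin 2 → ℂ)
    (P : Fin m → Fin 2 → ℤ) (hx : ∀ j, ‖x j‖ = 1) (hP : ∀ i, γ i = ∏ j, x j ^ P i j)
    (hind : ∀ n : Fin 2 → ℤ, ∏ j, x j ^ n j = 1 → n = 0) :
    (∃ g g' : Fin m → ℤ, IsMono g ∧ IsMono g' ∧ g ≠ g' ∧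
      (chi (g - g') '' ZSet c0 c γ).Finite) ∨
    ∃ α β X Y : ℂ, α ≠ 0 ∧ β ≠ 0 ∧ ‖X‖ = 1 ∧ ‖Y‖ = 1 ∧
      (∀ a b : ℤ, X ^ a * Y ^ b = 1 → a = 0 ∧ b = 0) ∧
      ∀ n : ℕ, Fd c0 c (fun i => γ i ^ (2 * n)) = ((α * X ^ n).re + (β * Y ^ n).re) ^ 2 := by
  classical
  set x0 := x 0 with hx0
  set y0 := x 1 with hy0
  have hnx : ‖x0‖ = 1 := hx 0
  have hny : ‖y0‖ = 1 := hx 1
  set Q : Fin m → ℤ × ℤ := fun i => (P i 0, P i 1) with hQ
  have hγQ : ∀ i, γ i = mon x0 y0 (Q i) := by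
    intro i
    rw [hP, Fin.prod_univ_two]
    rfl
  have hind' : ∀ a b : ℤ, x0 ^ a * y0 ^ b = 1 → a = 0 ∧ b = 0 := by
    intro a b h
    have h1 := hind ![a, b] (by
      rw [Fin.prod_univ_two]
      simpa using h)
    exact ⟨by simpa using congrFun h1 0, by simpa using congrFun h1 1⟩
  have hmon : ∀ a : ℤ × ℤ, mon x0 y0 a = 1 → a = 0 := by
    intro a h
    obtain ⟨h1, h2⟩ := hind' _ _ h
    exact Prod.ext h1 h2
  have ht1 : ∀ z : ℂ, z = 1 → Tor z := fun z hz => ⟨1, one_pos, by rw [hz, one_pow]⟩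
  have hQ0 : ∀ i, Q i ≠ 0 := by
    intro i h
    apply hγ.one i
    apply ht1
    rw [hγQ, h, mon_zero]
  have hQinj : ∀ i j, Q i = Q j → i = j := by
    intro i j h
    by_contra hij
    apply hγ.div i j hij
    apply ht1
    rw [hγQ i, hγQ j, h]
    exact mul_inv_cancel₀ (ne_of_norm (norm_mon hnx hny _))
  have hQneg : ∀ i j, Q i ≠ -Q j := by
    intro i j h
    by_cases hij : i = j
    · subst hij
      apply hQ0 i
      have h1 := congrArg Prod.fst h
      have h2 := congrArg Prod.snd h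
      rw [Prod.fst_neg] at h1
      rw [Prod.snd_neg] at h2
      exact Prod.ext (by change (Q i).1 = 0; omega) (by change (Q i).2 = 0; omega)
    · apply hγ.mul i j hij
      apply ht1
      rw [hγQ i, hγQ j, h, mon_neg]
      exact inv_mul_cancel₀ (ne_of_norm (norm_mon hnx hny _))
  set C : ℤ × ℤ → ℂ := fun a => (if a = 0 then (c0 : ℂ) else 0) +
    (∑ i, (if a = Q i then c i else 0) + ∑ i, (if a = -Q i then (starRingEnd ℂ) (c i) else 0))
    with hC
  set S : Finset (ℤ × ℤ) := insert 0 (Finset.univ.image Q ∪ Finset.univ.image (fun i => -Q i))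
    with hS
  have hC0 : C 0 = c0 := by
    rw [hC]
    simp only [if_true]
    rw [Finset.sum_eq_zero, Finset.sum_eq_zero, add_zero, add_zero]
    · intro i _
      rw [if_neg]
      intro h
      exact hQ0 i (by rw [← neg_eq_zero, ← h])
    · intro i _
      rw [if_neg]
      exact fun h => hQ0 i h.symm
  have hCQ : ∀ i, C (Q i) = c i := by
    intro i
    rw [hC]
    simp only
    rw [if_neg (hQ0 i), zero_add, Finset.sum_eq_single i, if_pos rfl, Finset.sum_eq_zero, add_zero]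
    · intro j _
      rw [if_neg (hQneg i j)]
    · intro j _ hj
      rw [if_neg]
      exact fun h => hj (hQinj _ _ h).symm
    · intro h; exact absurd (Finset.mem_univ i) h
  have hCneg : ∀ a, C (-a) = (starRingEnd ℂ) (C a) := by
    intro a
    rw [hC]
    simp only [map_add, map_sum]
    have e1 : (if -a = 0 then (c0 : ℂ) else 0) = (starRingEnd ℂ) (if a = 0 then (c0 : ℂ) else 0) := by
      by_cases h : a = 0
      · rw [if_pos h, if_pos (by rw [h, neg_zero]), Complex.conj_ofReal]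
      · rw [if_neg h, if_neg (by rwa [neg_eq_zero]), map_zero]
    have e2 : ∑ i, (if -a = Q i then c i else 0) =
        ∑ i, (starRingEnd ℂ) (if a = -Q i then (starRingEnd ℂ) (c i) else 0) := by
      refine Finset.sum_congr rfl fun i _ => ?_
      by_cases h : a = -Q i
      · rw [if_pos h, if_pos (by rw [h, neg_neg]), Complex.conj_conj]
      · rw [if_neg h, if_neg (fun h' => h (by rw [← h', neg_neg])), map_zero]
    have e3 : ∑ i, (if -a = -Q i then (starRingEnd ℂ) (c i) else 0) =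
        ∑ i, (starRingEnd ℂ) (if a = Q i then c i else 0) := by
      refine Finset.sum_congr rfl fun i _ => ?_
      by_cases h : a = Q i
      · rw [if_pos h, if_pos (by rw [h])]
      · rw [if_neg h, if_neg (fun h' => h (neg_injective h')), map_zero]
    rw [e1, e2, e3]
    ring
  have hCQ' : ∀ i, C (-Q i) = (starRingEnd ℂ) (c i) := by
    intro i
    rw [hCneg, hCQ]
  have hmemS : ∀ a, a ∈ S ↔ a = 0 ∨ (∃ i, a = Q i) ∨ ∃ i, a = -Q i := by
    intro a
    rw [hS, Finset.mem_insert, Finset.mem_union, Finset.mem_image, Finset.mem_image]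
    constructor
    · rintro (h | ⟨i, -, h⟩ | ⟨i, -, h⟩)
      · exact Or.inl h
      · exact Or.inr (Or.inl ⟨i, h.symm⟩)
      · exact Or.inr (Or.inr ⟨i, h.symm⟩)
    · rintro (h | ⟨i, h⟩ | ⟨i, h⟩)
      · exact Or.inl h
      · exact Or.inr (Or.inl ⟨i, Finset.mem_univ i, h.symm⟩)
      · exact Or.inr (Or.inr ⟨i, Finset.mem_univ i, h.symm⟩)
  have hSC : ∀ a, a ∈ S ↔ C a ≠ 0 := by
    intro a
    constructor
    · intro h
      rcases (hmemS a).1 h with rfl | ⟨i, rfl⟩ | ⟨i, rfl⟩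
      · rw [hC0]; exact_mod_cast hc0.ne'
      · rw [hCQ]; exact hc i
      · rw [hCQ']; exact (map_ne_zero _).2 (hc i)
    · intro h
      by_contra h1
      rw [hmemS] at h1
      push Not at h1
      apply h
      rw [hC]
      simp only
      rw [if_neg h1.1, Finset.sum_eq_zero, Finset.sum_eq_zero, add_zero, add_zero]
      · intro i _
        rw [if_neg (h1.2.2 i)]
      · intro i _
        rw [if_neg (h1.2.1 i)]
  have hcard : S.card ≤ 9 := by
    have h1 := Finset.card_insert_le (0 : ℤ × ℤ)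
      (Finset.univ.image Q ∪ Finset.univ.image (fun i => -Q i))
    have h2 := Finset.card_union_le (Finset.univ.image Q) (Finset.univ.image (fun i => -Q i))
    have h3 : (Finset.univ.image Q).card ≤ m := by
      have := Finset.card_image_le (s := (Finset.univ : Finset (Fin m))) (f := Q)
      rwa [Finset.card_univ, Fintype.card_fin] at this
    have h4 : (Finset.univ.image (fun i => -Q i)).card ≤ m := by
      have := Finset.card_image_le (s := (Finset.univ : Finset (Fin m))) (f := fun i => -Q i)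
      rwa [Finset.card_univ, Fintype.card_fin] at this
    rw [← hS] at h1
    omega
  -- the sum
  have hsum : ∀ X Y : ℂ, ‖X‖ = 1 → ‖Y‖ = 1 → ∑ a ∈ S, C a * mon X Y a =
      ((Fd c0 c (fun i => mon X Y (Q i)) : ℝ) : ℂ) := by
    intro X Y hX hY
    have e1 : ∑ a ∈ S, (if a = 0 then (c0 : ℂ) else 0) * mon X Y a = c0 := by
      rw [Finset.sum_eq_single 0]
      · rw [if_pos rfl, mon_zero, mul_one]
      · intro a _ ha
        rw [if_neg ha, zero_mul]
      · intro h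
        exact absurd ((hmemS 0).2 (Or.inl rfl)) h
    have e2 : ∀ i, ∑ a ∈ S, (if a = Q i then c i else 0) * mon X Y a = c i * mon X Y (Q i) := by
      intro i
      rw [Finset.sum_eq_single (Q i)]
      · rw [if_pos rfl]
      · intro a _ ha
        rw [if_neg ha, zero_mul]
      · intro h
        exact absurd ((hmemS _).2 (Or.inr (Or.inl ⟨i, rfl⟩))) h
    have e3 : ∀ i, ∑ a ∈ S, (if a = -Q i then (starRingEnd ℂ) (c i) else 0) * mon X Y a =
        (starRingEnd ℂ) (c i * mon X Y (Q i)) := by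
      intro i
      rw [Finset.sum_eq_single (-Q i)]
      · rw [if_pos rfl, map_mul, mon_neg, conj_of_norm (norm_mon hX hY _)]
      · intro a _ ha
        rw [if_neg ha, zero_mul]
      · intro h
        exact absurd ((hmemS _).2 (Or.inr (Or.inr ⟨i, rfl⟩))) h
    have e4 : ∀ a ∈ S, C a * mon X Y a = (if a = 0 then (c0 : ℂ) else 0) * mon X Y a +
        (∑ i, (if a = Q i then c i else 0) * mon X Y a +
          ∑ i, (if a = -Q i then (starRingEnd ℂ) (c i) else 0) * mon X Y a) := by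
      intro a _
      rw [hC]
      simp only
      rw [add_mul, add_mul, Finset.sum_mul, Finset.sum_mul]
    rw [Finset.sum_congr rfl e4, Finset.sum_add_distrib, e1, Finset.sum_add_distrib,
      Finset.sum_comm, Finset.sum_congr rfl fun i _ => e2 i, Finset.sum_comm,
      Finset.sum_congr rfl fun i _ => e3 i]
    unfold Fd
    rw [Complex.ofReal_add, Complex.ofReal_sum, ← Finset.sum_add_distrib]
    congr 1
    refine Finset.sum_congr rfl fun i _ => ?_
    rw [Complex.add_conj]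
  have hlim : ∀ X Y : ℂ, ‖X‖ = 1 → ‖Y‖ = 1 → LimPt γ (fun i => mon X Y (Q i)) := by
    intro X Y hX hY
    obtain ⟨φ, hφ, h1, h2⟩ := exists_seq hnx hny hind' hX hY
    refine limPt_of_tendsto hφ fun i => ?_
    have h3 := mon_tendsto (ne_of_norm hX) (ne_of_norm hY) h1 h2 (Q i)
    refine h3.congr fun k => ?_
    rw [mon_pow, hγQ]
  have hZ : ∀ z ∈ ZSet c0 c γ, ∃ X Y : ℂ, ‖X‖ = 1 ∧ ‖Y‖ = 1 ∧ (fun i => mon X Y (Q i)) = z ∧
      ∑ a ∈ S, C a * mon X Y a = 0 := by
    rintro z ⟨hz1, hz2⟩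
    obtain ⟨φ, hφ, h1⟩ := tendsto_of_limPt hz1
    have hcomp : IsCompact (Metric.sphere (0 : ℂ) 1 ×ˢ Metric.sphere (0 : ℂ) 1) :=
      (isCompact_sphere _ _).prod (isCompact_sphere _ _)
    obtain ⟨⟨X, Y⟩, hXY, ψ, hψ, hlim2⟩ := hcomp.tendsto_subseq
      (x := fun k => (x0 ^ φ k, y0 ^ φ k)) (fun k => by
        constructor
        · simp [hnx]
        · simp [hny])
    have hX : ‖X‖ = 1 := by simpa using hXY.1
    have hY : ‖Y‖ = 1 := by simpa using hXY.2
    have h2 : Tendsto (fun k => x0 ^ φ (ψ k)) atTop (𝓝 X) :=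
      (continuous_fst.tendsto _).comp hlim2
    have h3 : Tendsto (fun k => y0 ^ φ (ψ k)) atTop (𝓝 Y) :=
      (continuous_snd.tendsto _).comp hlim2
    have h4 : (fun i => mon X Y (Q i)) = z := by
      funext i
      have h5 := mon_tendsto (ne_of_norm hX) (ne_of_norm hY) h2 h3 (Q i)
      have h6 := (h1 i).comp hψ.tendsto_atTop
      refine tendsto_nhds_unique h5 (h6.congr fun k => ?_)
      rw [mon_pow, Function.comp_apply, hγQ]
    refine ⟨X, Y, hX, hY, h4, ?_⟩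
    rw [hsum X Y hX hY, h4, hz2, Complex.ofReal_zero]
  rcases H S C hSC hCneg ((hmemS 0).2 (Or.inl rfl)) hcard
    ⟨Q ⟨0, hm0⟩, (hmemS _).2 (Or.inr (Or.inl ⟨_, rfl⟩)), hQ0 _⟩ (fun X Y hX hY => by
      rw [hsum X Y hX hY, Complex.ofReal_re]
      exact (hlim X Y hX hY).nonneg hF) with h | h
  · left
    obtain ⟨a, ha, b, hb, hab, hfin⟩ := h
    have hex : ∀ a ∈ S, ∃ g : Fin m → ℤ, IsMono g ∧ ∑ i, g i • Q i = a := by
      intro a ha
      rcases (hmemS a).1 ha with rfl | ⟨i, rfl⟩ | ⟨i, rfl⟩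
      · exact ⟨0, Or.inl rfl, by simp⟩
      · refine ⟨Pi.single i 1, Or.inr ⟨i, Or.inl rfl⟩, ?_⟩
        rw [Finset.sum_eq_single i]
        · rw [Pi.single_eq_same, one_smul]
        · intro j _ hj
          rw [Pi.single_eq_of_ne hj, zero_smul]
        · intro h; exact absurd (Finset.mem_univ i) h
      · refine ⟨-Pi.single i 1, Or.inr ⟨i, Or.inr rfl⟩, ?_⟩
        rw [Finset.sum_eq_single i]
        · rw [Pi.neg_apply, Pi.single_eq_same, neg_smul, one_smul]
        · intro j _ hj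
          rw [Pi.neg_apply, Pi.single_eq_of_ne hj, neg_zero, zero_smul]
        · intro h; exact absurd (Finset.mem_univ i) h
    obtain ⟨g, hg, hga⟩ := hex a ha
    obtain ⟨g', hg', hgb⟩ := hex b hb
    refine ⟨g, g', hg, hg', ?_, hfin.subset ?_⟩
    · rintro rfl
      exact hab (hga.symm.trans hgb)
    · rintro w ⟨z, hz, rfl⟩
      obtain ⟨X, Y, hX, hY, rfl, h0⟩ := hZ z hz
      refine ⟨X, Y, hX, hY, h0, ?_⟩
      rw [mon_sum (ne_of_norm hX) (ne_of_norm hY), ← hga, ← hgb, ← Finset.sum_sub_distrib]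
      congr 1
      refine Finset.sum_congr rfl fun i _ => ?_
      rw [Pi.sub_apply, sub_smul]
  · right
    obtain ⟨a, b, al, be, hdet, hal, hbe, hab, hab', hCa, hCb, hC00, hgrid⟩ := h
    have hx00 := ne_of_norm hnx
    have hy00 := ne_of_norm hny
    set A := mon x0 y0 a with hA
    set B := mon x0 y0 b with hB
    have hA1 : ‖A‖ = 1 := norm_mon hnx hny a
    have hB1 : ‖B‖ = 1 := norm_mon hnx hny b
    have hA0 := ne_of_norm hA1
    have hB0 := ne_of_norm hB1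
    refine ⟨2 * al, 2 * be, A * B, A * B⁻¹, mul_ne_zero two_ne_zero hal,
      mul_ne_zero two_ne_zero hbe, by rw [norm_mul, hA1, hB1, one_mul],
      by rw [norm_mul, norm_inv, hA1, hB1, inv_one, one_mul], fun p q hpq => ?_, fun n => ?_⟩
    · have h1 : mon x0 y0 ((p + q) • a + (p - q) • b) = 1 := by
        rw [mon_add hx00 hy00, mon_smul, mon_smul, ← hA, ← hB, zpow_add₀ hA0, zpow_sub₀ hB0,
          ← hpq, mul_zpow, mul_zpow, inv_zpow]
        field_simp
      have h2 := hmon _ h1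
      have h3 := congrArg Prod.fst h2
      have h4 := congrArg Prod.snd h2
      simp only [Prod.fst_add, Prod.snd_add, Prod.smul_fst, Prod.smul_snd, smul_eq_mul,
        Prod.fst_zero, Prod.snd_zero] at h3 h4
      have h5 : (p + q) * (a.1 * b.2 - a.2 * b.1) = 0 := by linear_combination b.2 * h3 - b.1 * h4
      have h6 : (p - q) * (a.1 * b.2 - a.2 * b.1) = 0 := by linear_combination a.1 * h4 - a.2 * h3
      have h7 := (mul_eq_zero.1 h5).resolve_right hdet
      have h8 := (mul_eq_zero.1 h6).resolve_right hdet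
      omega
    · have hXn : ‖x0 ^ (2 * n)‖ = 1 := by rw [norm_pow, hnx, one_pow]
      have hYn : ‖y0 ^ (2 * n)‖ = 1 := by rw [norm_pow, hny, one_pow]
      have h1 : (fun i => γ i ^ (2 * n)) = fun i => mon (x0 ^ (2 * n)) (y0 ^ (2 * n)) (Q i) := by
        funext i
        rw [mon_pow, hγQ]
      rw [h1]
      apply Complex.ofReal_injective
      rw [← hsum _ _ hXn hYn]
      set I3 : Finset ℤ := Finset.Icc (-1 : ℤ) 1 with hI3
      set T : Finset (ℤ × ℤ) := (I3 ×ˢ I3).image (fun p => p.1 • a + p.2 • b) with hT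
      have hST : S ⊆ T := by
        intro e he
        obtain ⟨s, hs, t, ht, rfl⟩ := hgrid e he
        exact Finset.mem_image.2 ⟨(s, t), Finset.mem_product.2 ⟨hs, ht⟩, rfl⟩
      have hinj : Set.InjOn (fun p : ℤ × ℤ => p.1 • a + p.2 • b) (I3 ×ˢ I3 : Finset (ℤ × ℤ)) := by
        intro p _ q _ hpq
        simp only at hpq
        have h3 := congrArg Prod.fst hpq
        have h4 := congrArg Prod.snd hpq
        simp only [Prod.fst_add, Prod.snd_add, Prod.smul_fst, Prod.smul_snd, smul_eq_mul] at h3 h4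
        have h5 : (p.1 - q.1) * (a.1 * b.2 - a.2 * b.1) = 0 := by
          linear_combination b.2 * h3 - b.1 * h4
        have h6 : (p.2 - q.2) * (a.1 * b.2 - a.2 * b.1) = 0 := by
          linear_combination a.1 * h4 - a.2 * h3
        have h7 := (mul_eq_zero.1 h5).resolve_right hdet
        have h8 := (mul_eq_zero.1 h6).resolve_right hdet
        exact Prod.ext (by omega) (by omega)
      rw [Finset.sum_subset hST (fun e _ he => by
        have h2 : C e = 0 := by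
          by_contra h3
          exact he ((hSC e).2 h3)
        rw [h2, zero_mul])]
      rw [hT, Finset.sum_image hinj, Finset.sum_product]
      have hI : I3 = {-1, 0, 1} := by rw [hI3]; rfl
      have hs3 : ∀ f : ℤ → ℂ, ∑ s ∈ I3, f s = f (-1) + f 0 + f 1 := by
        intro f
        rw [hI, Finset.sum_insert (by decide), Finset.sum_insert (by decide),
          Finset.sum_singleton, add_assoc]
      simp only [hs3]
      set s := A ^ n with hs
      set t := B ^ n with ht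
      have hs1 : ‖s‖ = 1 := by rw [hs, norm_pow, hA1, one_pow]
      have ht1' : ‖t‖ = 1 := by rw [ht, norm_pow, hB1, one_pow]
      have hmp : ∀ p q : ℤ, mon (x0 ^ (2 * n)) (y0 ^ (2 * n)) (p • a + q • b) =
          (s ^ 2) ^ p * (t ^ 2) ^ q := by
        intro p q
        rw [mon_pow, mon_add hx00 hy00, mon_smul, mon_smul, ← hA, ← hB, hs, ht, mul_pow]
        congr 1
        · rw [← pow_mul, mul_comm n 2, ← zpow_natCast, ← zpow_natCast, ← zpow_mul, ← zpow_mul,
            mul_comm]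
        · rw [← pow_mul, mul_comm n 2, ← zpow_natCast, ← zpow_natCast, ← zpow_mul, ← zpow_mul,
            mul_comm]
      simp only [hmp]
      have g1 : C ((-1 : ℤ) • a + (-1 : ℤ) • b) = (starRingEnd ℂ) al ^ 2 := by
        rw [show (-1 : ℤ) • a + (-1 : ℤ) • b = -(a + b) by module, hCneg, hab, map_pow]
      have g2 : C ((-1 : ℤ) • a + (0 : ℤ) • b) = 2 * (starRingEnd ℂ) al * (starRingEnd ℂ) be := by
        rw [show (-1 : ℤ) • a + (0 : ℤ) • b = -a by module, hCneg, hCa, map_mul, map_mul,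
          map_ofNat]
      have g3 : C ((-1 : ℤ) • a + (1 : ℤ) • b) = (starRingEnd ℂ) be ^ 2 := by
        rw [show (-1 : ℤ) • a + (1 : ℤ) • b = -(a - b) by module, hCneg, hab', map_pow]
      have g4 : C ((0 : ℤ) • a + (-1 : ℤ) • b) = 2 * (starRingEnd ℂ) al * be := by
        rw [show (0 : ℤ) • a + (-1 : ℤ) • b = -b by module, hCneg, hCb, map_mul, map_mul,
          map_ofNat, Complex.conj_conj]
      have g5 : C ((0 : ℤ) • a + (0 : ℤ) • b) = 2 * (al * (starRingEnd ℂ) al) +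
          2 * (be * (starRingEnd ℂ) be) := by
        rw [show (0 : ℤ) • a + (0 : ℤ) • b = 0 by module, hC00]
      have g6 : C ((0 : ℤ) • a + (1 : ℤ) • b) = 2 * al * (starRingEnd ℂ) be := by
        rw [show (0 : ℤ) • a + (1 : ℤ) • b = b by module, hCb]
      have g7 : C ((1 : ℤ) • a + (-1 : ℤ) • b) = be ^ 2 := by
        rw [show (1 : ℤ) • a + (-1 : ℤ) • b = a - b by module, hab']
      have g8 : C ((1 : ℤ) • a + (0 : ℤ) • b) = 2 * al * be := by
        rw [show (1 : ℤ) • a + (0 : ℤ) • b = a by module, hCa]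
      have g9 : C ((1 : ℤ) • a + (1 : ℤ) • b) = al ^ 2 := by
        rw [show (1 : ℤ) • a + (1 : ℤ) • b = a + b by module, hab]
      rw [g1, g2, g3, g4, g5, g6, g7, g8, g9]
      have key := nine_terms al be s t hs1 ht1'
      have e1 : (A * B) ^ n = s * t := by rw [mul_pow]
      have e2 : (A * B⁻¹) ^ n = s * t⁻¹ := by rw [mul_pow, inv_pow]
      rw [e1, e2, Complex.ofReal_pow, key]
      simp only [zpow_neg, zpow_one, zpow_zero, mul_one, one_mul]
      ring

end Pool.Agent.F1
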