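import Mathlib
import Pool.Agent.F1.Plane
import Pool.Agent.O9.Defs

/-! Exceptional sequences are not narrow. -/

set_option autoImplicit false

open Filter Topology

namespace Pool.Agent.F1

open NarrowFew

lemma finite_zpow (Q : ℤ) (hQ : Q ≠ 0) (w : ℂ) : {Y : ℂ | Y ^ Q = w}.Finite := by
  have h1 : ∀ (n : ℕ), 0 < n → ∀ w : ℂ, {Y : ℂ | Y ^ n = w}.Finite := by
    intro n hn w
    refine Set.Finite.subset (Multiset.finite_toSet (Polynomial.nthRoots n w)) fun Y hY => ?_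
    exact (Polynomial.mem_nthRoots hn).2 hY
  refine Set.Finite.subset ((h1 Q.natAbs (Int.natAbs_pos.2 hQ) w).union
    (h1 Q.natAbs (Int.natAbs_pos.2 hQ) w⁻¹)) fun Y hY => ?_
  have hY' : Y ^ Q = w := hY
  rcases le_total 0 Q with h | h
  · left
    change Y ^ Q.natAbs = w
    rw [← zpow_natCast, Int.natAbs_of_nonneg h, hY']
  · right
    change Y ^ Q.natAbs = w⁻¹
    rw [← zpow_natCast, Int.ofNat_natAbs_of_nonpos h, zpow_neg, hY']

lemma circle_infinite : {X : ℂ | ‖X‖ = 1}.Infinite := by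
  have h1 : Set.InjOn (fun t : ℝ => Complex.exp (t * Complex.I)) (Set.Ioo 0 1) := by
    intro s hs t ht h
    have h2 := congrArg Complex.arg h
    simp only at h2
    have hpi := Real.pi_gt_three
    rw [Complex.arg_exp_mul_I, Complex.arg_exp_mul_I,
      toIocMod_eq_self _ |>.2, toIocMod_eq_self _ |>.2] at h2
    · exact h2
    · constructor <;> linarith [hs.1, hs.2, ht.1, ht.2]
    · constructor <;> linarith [hs.1, hs.2, ht.1, ht.2]
  have h2 := (Set.Ioo_infinite (show (0 : ℝ) < 1 by norm_num)).image h1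
  refine h2.mono ?_
  rintro _ ⟨t, -, rfl⟩
  exact Complex.norm_exp_ofReal_mul_I t

lemma curve_aux (α β : ℂ) (hα : α ≠ 0) (hβ : β ≠ 0) (hab : ‖α‖ ≤ ‖β‖) (P Q : ℤ)
    (hPQ : P ≠ 0 ∨ Q ≠ 0) (W : Set ℂ) (hW : W.Finite)
    (h : ∀ X Y : ℂ, ‖X‖ = 1 → ‖Y‖ = 1 → (α * X).re + (β * Y).re = 0 → X ^ P * Y ^ Q ∈ W) :
    False := by
  -- solutions above each point
  have hsol : ∀ X : ℂ, ‖X‖ = 1 → ∃ Y Y' : ℂ, ‖Y‖ = 1 ∧ ‖Y'‖ = 1 ∧ (α * X).re + (β * Y).re = 0 ∧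
      (α * X).re + (β * Y').re = 0 ∧ Y * Y' = (‖β‖ : ℂ) ^ 2 / β ^ 2 := by
    intro X hX
    set t : ℝ := -(α * X).re with ht
    have ht1 : t ^ 2 ≤ ‖β‖ ^ 2 := by
      have h1 : |(α * X).re| ≤ ‖α * X‖ := Complex.abs_re_le_norm _
      rw [norm_mul, hX, mul_one] at h1
      have h2 : |t| ≤ ‖β‖ := by rw [ht, abs_neg]; exact h1.trans hab
      have h3 := abs_nonneg t
      rw [← sq_abs t]
      exact pow_le_pow_left₀ h3 h2 2
    set s : ℝ := Real.sqrt (‖β‖ ^ 2 - t ^ 2) with hs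
    have hs2 : s ^ 2 = ‖β‖ ^ 2 - t ^ 2 := Real.sq_sqrt (by linarith)
    have hβn : 0 < ‖β‖ := norm_pos_iff.2 hβ
    have hnorm : ∀ u : ℝ, u ^ 2 = s ^ 2 → ‖(⟨t, u⟩ : ℂ) / β‖ = 1 := by
      intro u hu
      rw [norm_div, div_eq_one_iff_eq hβn.ne']
      have h4 : ‖(⟨t, u⟩ : ℂ)‖ ^ 2 = ‖β‖ ^ 2 := by
        rw [← Complex.normSq_eq_norm_sq, Complex.normSq_mk]
        nlinarith
      exact (pow_left_inj₀ (norm_nonneg _) (norm_nonneg _) two_ne_zero).1 h4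
    refine ⟨⟨t, s⟩ / β, ⟨t, -s⟩ / β, hnorm s rfl, hnorm (-s) (by ring), ?_, ?_, ?_⟩
    · rw [mul_div_cancel₀ _ hβ, ht]; simp
    · rw [mul_div_cancel₀ _ hβ, ht]; simp
    · rw [div_mul_div_comm, ← sq]
      congr 1
      apply Complex.ext
      · simp only [Complex.mul_re]
        rw [← Complex.ofReal_pow, Complex.ofReal_re]
        nlinarith
      · simp only [Complex.mul_im]
        rw [← Complex.ofReal_pow, Complex.ofReal_im]
        ring
  by_cases hP : P = 0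
  · have hQ : Q ≠ 0 := hPQ.resolve_left (not_not.2 hP)
    have hYfin : {Y : ℂ | Y ^ Q ∈ W}.Finite := by
      have : {Y : ℂ | Y ^ Q ∈ W} = ⋃ w ∈ W, {Y : ℂ | Y ^ Q = w} := by
        ext Y; simp
      rw [this]
      exact hW.biUnion fun w _ => finite_zpow Q hQ w
    apply circle_infinite
    refine Set.Finite.subset (hYfin.biUnion fun Y _ =>
      finite_im (Complex.I * α) (mul_ne_zero Complex.I_ne_zero hα) (-(β * Y).re)) fun X hX => ?_
    obtain ⟨Y, -, hY, -, h1, -, -⟩ := hsol X hX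
    have h2 := h X Y hX hY h1
    rw [hP, zpow_zero, one_mul] at h2
    refine Set.mem_biUnion (x := Y) h2 ⟨hX, ?_⟩
    rw [mul_assoc, Complex.mul_im, Complex.I_re, Complex.I_im]
    linarith
  · set κ : ℂ := ((‖β‖ : ℂ) ^ 2 / β ^ 2) ^ Q with hκ
    have hκ0 : κ ≠ 0 := by
      rw [hκ]
      have : (‖β‖ : ℂ) ≠ 0 := by exact_mod_cast norm_ne_zero_iff.2 hβ
      exact zpow_ne_zero _ (div_ne_zero (pow_ne_zero _ this) (pow_ne_zero _ hβ))
    have hfin : (Set.image2 (fun a b => a * b / κ) W W).Finite := hW.image2 _ hW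
    apply circle_infinite
    refine hfin.subset fun z hz => ?_
    obtain ⟨X, hX, hXz⟩ := exists_unit_root hz (2 * P) (by
      intro h0
      exact hP (by omega))
    obtain ⟨Y, Y', hY, hY', h1, h2, h3⟩ := hsol X hX
    refine ⟨_, h X Y hX hY h1, _, h X Y' hX hY' h2, ?_⟩
    change X ^ P * Y ^ Q * (X ^ P * Y' ^ Q) / κ = z
    have h4 : X ^ P * Y ^ Q * (X ^ P * Y' ^ Q) = X ^ (2 * P) * (Y * Y') ^ Q := by
      rw [two_mul, zpow_add₀ (ne_of_norm hX), mul_zpow]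
      ring
    rw [h4, hXz, h3, ← hκ, mul_div_cancel_right₀ _ hκ0]

lemma curve_infinite (α β : ℂ) (hα : α ≠ 0) (hβ : β ≠ 0) (P Q : ℤ)
    (hPQ : P ≠ 0 ∨ Q ≠ 0) (W : Set ℂ) (hW : W.Finite)
    (h : ∀ X Y : ℂ, ‖X‖ = 1 → ‖Y‖ = 1 → (α * X).re + (β * Y).re = 0 → X ^ P * Y ^ Q ∈ W) :
    False := by
  rcases le_total ‖α‖ ‖β‖ with hab | hab
  · exact curve_aux α β hα hβ hab P Q hPQ W hW h
  · refine curve_aux β α hβ hα hab Q P hPQ.symm W hW fun X Y hX hY h1 => ?_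
    rw [mul_comm]
    exact h Y X hY hX (by rw [add_comm]; exact h1)

/-- sequences along which the two powers converge -/
lemma exists_strictMono {x0 y0 : ℂ} (hx0 : ‖x0‖ = 1) (hy0 : ‖y0‖ = 1)
    (hind : ∀ a b : ℤ, x0 ^ a * y0 ^ b = 1 → a = 0 ∧ b = 0) {x y : ℂ} (hx : ‖x‖ = 1)
    (hy : ‖y‖ = 1) : ∃ φ : ℕ → ℕ, StrictMono φ ∧ Tendsto (fun k => x0 ^ φ k) atTop (𝓝 x) ∧
      Tendsto (fun k => y0 ^ φ k) atTop (𝓝 y) := by
  obtain ⟨φ, hφ, h1, h2⟩ := exists_seq hx0 hy0 hind hx hy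
  have h3 : Tendsto φ atTop atTop := tendsto_atTop_mono hφ tendsto_id
  obtain ⟨ψ, hψ, h4⟩ := strictMono_subseq_of_tendsto_atTop h3
  exact ⟨φ ∘ ψ, h4, h1.comp hψ.tendsto_atTop, h2.comp hψ.tendsto_atTop⟩

/-- The contact values along the zeros of a sum of two independent cosines are infinite in
number. -/
lemma contact_infinite {α β x y : ℂ} (hα : α ≠ 0) (hβ : β ≠ 0) (hx : ‖x‖ = 1) (hy : ‖y‖ = 1)
    (hind : ∀ a b : ℤ, x ^ a * y ^ b = 1 → a = 0 ∧ b = 0) {θ κ : ℂ} (hθ : ‖θ‖ = 1) (hκ : κ ≠ 0)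
    (hθ1 : ∀ n : ℕ, 0 < n → θ ^ n ≠ 1) :
    {ζ : ℂ | ∃ φ : ℕ → ℕ, StrictMono φ ∧
      Tendsto (fun k => (α * x ^ φ k).re + (β * y ^ φ k).re) atTop (𝓝 0) ∧
      Tendsto (fun k => κ * θ ^ φ k) atTop (𝓝 ζ)}.Infinite := by
  intro hW
  set W := {ζ : ℂ | ∃ φ : ℕ → ℕ, StrictMono φ ∧
      Tendsto (fun k => (α * x ^ φ k).re + (β * y ^ φ k).re) atTop (𝓝 0) ∧
      Tendsto (fun k => κ * θ ^ φ k) atTop (𝓝 ζ)} with hWdef
  have hcont : ∀ (X Y : ℂ) (φ : ℕ → ℕ), (α * X).re + (β * Y).re = 0 →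
      Tendsto (fun k => x ^ φ k) atTop (𝓝 X) → Tendsto (fun k => y ^ φ k) atTop (𝓝 Y) →
      Tendsto (fun k => (α * x ^ φ k).re + (β * y ^ φ k).re) atTop (𝓝 0) := by
    intro X Y φ h0 h1 h2
    rw [← h0]
    exact ((Complex.continuous_re.tendsto _).comp (h1.const_mul α)).add
      ((Complex.continuous_re.tendsto _).comp (h2.const_mul β))
  by_cases hA : ∀ p q r : ℤ, Tor (x ^ p * y ^ q * θ ^ r) → r = 0
  · -- independent
    obtain ⟨X, Y, hX, hY, h0⟩ : ∃ X Y : ℂ, ‖X‖ = 1 ∧ ‖Y‖ = 1 ∧ (α * X).re + (β * Y).re = 0 := by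
      have hα1 : (‖α‖ : ℂ) ≠ 0 := by exact_mod_cast norm_ne_zero_iff.2 hα
      have hβ1 : (‖β‖ : ℂ) ≠ 0 := by exact_mod_cast norm_ne_zero_iff.2 hβ
      refine ⟨Complex.I * ‖α‖ / α, Complex.I * ‖β‖ / β, ?_, ?_, ?_⟩
      · rw [norm_div, norm_mul, Complex.norm_I, Complex.norm_real, norm_norm, one_mul,
          div_self (norm_ne_zero_iff.2 hα)]
      · rw [norm_div, norm_mul, Complex.norm_I, Complex.norm_real, norm_norm, one_mul,
          div_self (norm_ne_zero_iff.2 hβ)]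
      · rw [mul_div_cancel₀ _ hα, mul_div_cancel₀ _ hβ]
        simp
    have hsub : (fun z => κ * z) '' {z : ℂ | ‖z‖ = 1} ⊆ W := by
      rintro _ ⟨Θ, hΘ, rfl⟩
      have key : ∀ k : ℕ, ∃ n : ℕ, k ≤ n ∧ ∀ i, ‖(![x, y, θ] : Fin 3 → ℂ) i ^ (1 * n) -
          (![X, Y, Θ] : Fin 3 → ℂ) i‖ < 1 / ((k : ℝ) + 1) := by
        intro k
        refine DD7719.kronecker ![x, y, θ] ![X, Y, Θ] ?_ ?_ ?_ 1 one_pos k _ (by positivity)
        · intro i; fin_cases i <;> simp [hx, hy, hθ]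
        · intro i; fin_cases i
          · exact hX
          · exact hY
          · exact hΘ
        · rintro g ⟨n, hn, hg⟩
          rw [Fin.prod_univ_three] at hg
          have h1 := hA (g 0) (g 1) (g 2) ⟨n, hn, hg⟩
          simp only [Matrix.cons_val_zero, Matrix.cons_val_one] at hg
          rw [h1, zpow_zero, mul_one] at hg
          have h2 : x ^ (g 0 * n) * y ^ (g 1 * n) = 1 := by
            rw [zpow_mul, zpow_mul, zpow_natCast, zpow_natCast, ← mul_pow]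
            exact hg
          obtain ⟨h3, h4⟩ := hind _ _ h2
          have hn' : (n : ℤ) ≠ 0 := by exact_mod_cast hn.ne'
          rw [Fin.prod_univ_three, (mul_eq_zero.1 h3).resolve_right hn',
            (mul_eq_zero.1 h4).resolve_right hn', h1]
          simp
      choose φ hφ hk using key
      have hlim : ∀ i, Tendsto (fun k => (![x, y, θ] : Fin 3 → ℂ) i ^ φ k) atTop
          (𝓝 ((![X, Y, Θ] : Fin 3 → ℂ) i)) := by
        intro i
        rw [tendsto_iff_norm_sub_tendsto_zero]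
        refine squeeze_zero (fun _ => norm_nonneg _) (fun k => ?_)
          tendsto_one_div_add_atTop_nhds_zero_nat
        have := (hk k i).le
        rwa [one_mul] at this
      have h3 : Tendsto φ atTop atTop := tendsto_atTop_mono hφ tendsto_id
      obtain ⟨ψ, hψ, h4⟩ := strictMono_subseq_of_tendsto_atTop h3
      refine ⟨φ ∘ ψ, h4, hcont X Y _ h0 ((hlim 0).comp hψ.tendsto_atTop)
        ((hlim 1).comp hψ.tendsto_atTop), ?_⟩
      exact ((hlim 2).comp hψ.tendsto_atTop).const_mul κ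
    exact (circle_infinite.image (fun a _ b _ h => mul_left_cancel₀ hκ h)).mono hsub hW
  · push Not at hA
    obtain ⟨p, q, r, ⟨s, hs, h1⟩, hr⟩ := hA
    have hθ0 : θ ≠ 0 := ne_of_norm hθ
    have hs' : (s : ℤ) ≠ 0 := by exact_mod_cast hs.ne'
    have h2 : x ^ (p * s) * y ^ (q * s) = θ ^ (-(r * s)) := by
      rw [mul_pow, mul_pow, ← zpow_natCast, ← zpow_natCast, ← zpow_natCast, ← zpow_mul, ← zpow_mul,
        ← zpow_mul] at h1
      rw [zpow_neg]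
      exact eq_inv_of_mul_eq_one_left h1
    refine curve_infinite α β hα hβ (p * s) (q * s) ?_ ((fun ζ => (ζ / κ) ^ (-(r * s))) '' W)
      (hW.image _) fun X Y hX hY h0 => ?_
    · by_contra hcon
      push Not at hcon
      rw [hcon.1, hcon.2, zpow_zero, zpow_zero, one_mul] at h2
      have h3 : θ ^ (r * s).natAbs = 1 := by
        rcases le_total 0 (r * s) with h | h
        · rw [← zpow_natCast, Int.natAbs_of_nonneg h, ← inv_eq_one, ← zpow_neg, ← h2]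
        · rw [← zpow_natCast, Int.ofNat_natAbs_of_nonpos h, ← h2]
      exact hθ1 _ (Int.natAbs_pos.2 (mul_ne_zero hr hs')) h3
    · obtain ⟨φ, hφ, h3, h4⟩ := exists_strictMono hx hy hind hX hY
      obtain ⟨Θ, hΘ, ψ, hψ, h5⟩ := (isCompact_sphere (0 : ℂ) 1).tendsto_subseq
        (x := fun k => θ ^ φ k) (fun k => by simp [hθ])
      have hΘ1 : ‖Θ‖ = 1 := by simpa using hΘ
      refine ⟨κ * Θ, ⟨φ ∘ ψ, hφ.comp hψ, hcont X Y _ h0 (h3.comp hψ.tendsto_atTop)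
        (h4.comp hψ.tendsto_atTop), h5.const_mul κ⟩, ?_⟩
      change (κ * Θ / κ) ^ (-(r * s)) = X ^ (p * s) * Y ^ (q * s)
      rw [mul_div_cancel_left₀ _ hκ]
      have h6 : Tendsto (fun k => (x ^ φ (ψ k)) ^ (p * s) * (y ^ φ (ψ k)) ^ (q * s)) atTop
          (𝓝 (X ^ (p * s) * Y ^ (q * s))) :=
        ((h3.comp hψ.tendsto_atTop).zpow₀ _ (Or.inl (ne_of_norm hX))).mul
          ((h4.comp hψ.tendsto_atTop).zpow₀ _ (Or.inl (ne_of_norm hY)))
      have h7 : Tendsto (fun k => (θ ^ φ (ψ k)) ^ (-(r * s))) atTop (𝓝 (Θ ^ (-(r * s)))) :=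
        h5.zpow₀ _ (Or.inl (ne_of_norm hΘ1))
      refine tendsto_nhds_unique h7 (h6.congr fun k => ?_)
      have e : ∀ (a : ℂ) (n : ℕ) (m : ℤ), (a ^ n) ^ m = (a ^ m) ^ n := by
        intro a n m
        rw [← zpow_natCast, ← zpow_natCast, ← zpow_mul, ← zpow_mul, mul_comm]
      rw [e x, e y, e θ, ← mul_pow, h2]

end Pool.Agent.F1
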