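import Mathlib
import Pool.Agent.F1.Plane

/-! At most four pairs: a character with finitely many values on the zeros, or a square. -/

set_option autoImplicit false

open Filter Topology

namespace Pool.Agent.F1

open NarrowFew

theorem ten_torus (H : PlaneThm) {m : ℕ} (hm : m ≤ 4) (hm0 : 0 < m) {c0 : ℝ} (hc0 : 0 < c0)
    {c γ : Fin m → ℂ} (hγ : Good γ) (hc : ∀ i, c i ≠ 0) (hF : AsNonneg c0 c γ)
    (htf : ∀ g : Fin m → ℤ, Tor (chi g γ) → chi g γ = 1) :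
    (∃ g g' : Fin m → ℤ, IsMono g ∧ IsMono g' ∧ g ≠ g' ∧
      (chi (g - g') '' ZSet c0 c γ).Finite) ∨
    ∃ α β X Y : ℂ, α ≠ 0 ∧ β ≠ 0 ∧ ‖X‖ = 1 ∧ ‖Y‖ = 1 ∧
      (∀ a b : ℤ, X ^ a * Y ^ b = 1 → a = 0 ∧ b = 0) ∧
      ∀ n : ℕ, Fd c0 c (fun i => γ i ^ (2 * n)) = ((α * X ^ n).re + (β * Y ^ n).re) ^ 2 := by
  obtain ⟨r, x, P, hx, hP, hind, hrel⟩ := exists_basis γ hγ.norm htf
  have hfin : (ZSet c0 c γ).Finite → ∃ g g' : Fin m → ℤ, IsMono g ∧ IsMono g' ∧ g ≠ g' ∧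
      (chi (g - g') '' ZSet c0 c γ).Finite := by
    intro h
    refine ⟨Pi.single ⟨0, hm0⟩ 1, 0, Or.inr ⟨_, Or.inl rfl⟩, Or.inl rfl, ?_, h.image _⟩
    intro h1
    have h2 := congrFun h1 ⟨0, hm0⟩
    rw [Pi.single_eq_same, Pi.zero_apply] at h2
    exact one_ne_zero h2
  rcases Nat.lt_or_ge 2 r with hr | hr
  · left
    refine hfin (finite_rank_le_one hγ hc hF fun g h hg hh => ?_)
    exact hrel (by omega) g h (htf g hg) (htf h hh)
  · interval_cases r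
    · exfalso
      apply hγ.one ⟨0, hm0⟩
      rw [hP]
      exact ⟨1, one_pos, by simp⟩
    · left
      refine hfin (finite_corank_one hc0.ne' hγ fun i j _ => ?_)
      have e : ∀ i, γ i = x 0 ^ P i 0 := by
        intro i
        rw [hP i, Fin.prod_univ_one]
      refine ⟨P j 0, -P i 0, ?_, ⟨1, one_pos, ?_⟩⟩
      · left
        intro h
        apply hγ.one j
        rw [e, h]
        exact ⟨1, one_pos, by simp⟩
      · rw [pow_one, e i, e j, ← zpow_mul, ← zpow_mul, ← zpow_add₀ (ne_of_norm (hx 0)),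
          mul_neg, mul_comm (P i 0), add_neg_cancel, zpow_zero]
    · exact plane_case H hm hm0 hc0 hγ hc hF x P hx hP hind

/-- The contact values of a character with finitely many values on the zeros. -/
lemma contact_finite' {m : ℕ} {c0 : ℝ} {c γ : Fin m → ℂ} (hγ : ∀ i, ‖γ i‖ = 1) (g : Fin m → ℤ)
    (hfin : (chi g '' ZSet c0 c γ).Finite) (w : ℕ → ℝ)
    (hw : Tendsto (fun n => w n - Fd c0 c (fun i => γ i ^ n)) atTop (𝓝 0)) (κ : ℂ) :
    {ζ : ℂ | ∃ φ : ℕ → ℕ, StrictMono φ ∧ Tendsto (fun n => w (φ n)) atTop (𝓝 0) ∧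
      Tendsto (fun n => κ * chi g γ ^ φ n) atTop (𝓝 ζ)}.Finite := by
  refine Set.Finite.subset (hfin.image fun z => κ * z) ?_
  rintro ζ ⟨φ, hφ, h1, h2⟩
  have hcomp : IsCompact (Set.pi Set.univ fun _ : Fin m => Metric.sphere (0 : ℂ) 1) :=
    isCompact_univ_pi fun _ => isCompact_sphere _ _
  obtain ⟨z, hzm, ψ, hψ, hz⟩ := hcomp.tendsto_subseq (x := fun n => fun i => γ i ^ φ n)
    (fun n => by
      intro i _
      simp [hγ])
  have hz1 : ∀ i, ‖z i‖ = 1 := fun i => by simpa using hzm i (Set.mem_univ i)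
  have hzi : ∀ i, Tendsto (fun n => γ i ^ φ (ψ n)) atTop (𝓝 (z i)) := by
    intro i
    exact ((continuous_apply i).tendsto z).comp hz
  have hchi : Tendsto (fun n => chi g γ ^ φ (ψ n)) atTop (𝓝 (chi g z)) := by
    have e : ∀ n, chi g γ ^ φ (ψ n) = ∏ i, (γ i ^ φ (ψ n)) ^ g i := by
      intro n
      unfold chi
      rw [← Finset.prod_pow]
      refine Finset.prod_congr rfl fun i _ => ?_
      rw [← zpow_natCast, ← zpow_natCast, ← zpow_mul, ← zpow_mul, mul_comm]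
    simp only [e]
    exact tendsto_finsetProd _ fun i _ => (hzi i).zpow₀ _ (Or.inl (ne_of_norm (hz1 i)))
  refine ⟨chi g z, ⟨z, ⟨?_, ?_⟩, rfl⟩, ?_⟩
  · intro N ε hε
    have h3 : ∀ᶠ n in atTop, ∀ i, ‖γ i ^ φ (ψ n) - z i‖ < ε := by
      rw [Filter.eventually_all]
      intro i
      have := Metric.tendsto_nhds.1 (hzi i) ε hε
      simpa [dist_eq_norm] using this
    have h4 : ∀ᶠ n in atTop, N ≤ φ (ψ n) :=
      (hφ.comp hψ).tendsto_atTop.eventually (eventually_ge_atTop N)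
    obtain ⟨n, h5, h6⟩ := (h3.and h4).exists
    exact ⟨φ (ψ n), h6, h5⟩
  · have h3 : Tendsto (fun n => Fd c0 c (fun i => γ i ^ φ (ψ n))) atTop (𝓝 (Fd c0 c z)) :=
      ((Fd_continuous c0 c).tendsto z).comp hz
    have h4 : Tendsto (fun n => w (φ (ψ n)) -
        (w (φ (ψ n)) - Fd c0 c (fun i => γ i ^ φ (ψ n)))) atTop (𝓝 (0 - 0)) :=
      (h1.comp hψ.tendsto_atTop).sub (hw.comp (hφ.comp hψ).tendsto_atTop)
    simp only [sub_sub_cancel, sub_zero] at h4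
    exact tendsto_nhds_unique h3 h4
  · have h3 : Tendsto (fun n => κ * chi g γ ^ φ (ψ n)) atTop (𝓝 (κ * chi g z)) :=
      hchi.const_mul κ
    exact tendsto_nhds_unique h3 (h2.comp hψ.tendsto_atTop)

end Pool.Agent.F1
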