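import Mathlib
import Pool.Agent.F1.Torus
import Pool.Agent.NarrowFew.Decomp
import Pool.Agent.DD7719.CertDef

/-! Sequences with at most ten roots on each circle: one residue class. -/

set_option autoImplicit false

open Filter Topology

namespace Pool.Agent.F1

open NarrowFew
open DD7719.M (nz norm_nz)

lemma nz_of_norm {x : ℂ} {ρ : ℝ} (hρ : 0 < ρ) (h : ‖x‖ = ρ) : nz x = x / ρ := by
  have h0 : x ≠ 0 := by
    intro h1
    rw [h1, norm_zero] at h
    exact hρ.ne h
  unfold DD7719.M.nz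
  rw [if_neg h0, h]

theorem ten_core (H : PlaneThm) (Λ : Finset ℂ) (C : ℂ → ℂ) (hΛ0 : ∀ x ∈ Λ, x ≠ 0) (w : ℕ → ℝ)
    (hpos : ∀ᶠ m in atTop, 0 < w m)
    (hw : ∀ᶠ m in atTop, (w m : ℂ) = ∑ x ∈ Λ, C x * x ^ m)
    (htf : ∀ (n : ℕ) (e : Fin n → ℂ) (g : Fin n → ℤ), (∀ i, e i ∈ Λ) →
      Tor (∏ i, nz (e i) ^ g i) → ∏ i, nz (e i) ^ g i = 1)
    (hcard : ∀ r : ℝ, 0 < r → (Λ.filter (fun x => ‖x‖ = r)).card ≤ 10) :
    ∃ ρ : ℝ, 0 < ρ ∧ (∃ B : ℝ, ∀ m, |w m| ≤ B * ρ ^ m) ∧
      (liminf (fun m => w m / ρ ^ m) atTop ≠ 0 ∨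
      (∃ x ∈ Λ, ∃ y ∈ Λ, ‖x‖ = ρ ∧ ‖y‖ = ρ ∧ x ≠ y ∧ ∀ κ : ℂ,
        {ζ : ℂ | ∃ φ : ℕ → ℕ, StrictMono φ ∧ Tendsto (fun n => w (φ n) / ρ ^ φ n) atTop (𝓝 0) ∧
          Tendsto (fun n => κ * (x / y) ^ φ n) atTop (𝓝 ζ)}.Finite) ∨
      ∃ α β X Y : ℂ, α ≠ 0 ∧ β ≠ 0 ∧ ‖X‖ = 1 ∧ ‖Y‖ = 1 ∧
        (∀ a b : ℤ, X ^ a * Y ^ b = 1 → a = 0 ∧ b = 0) ∧
        Tendsto (fun m : ℕ => w (2 * m) / ρ ^ (2 * m) - ((α * X ^ m).re + (β * Y ^ m).re) ^ 2)
          atTop (𝓝 0)) := by
  classical
  set S : Finset ℂ := Λ.filter (fun x => C x ≠ 0) with hS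
  have hSsum : ∀ m, ∑ x ∈ Λ, C x * x ^ m = ∑ x ∈ S, C x * x ^ m := by
    intro m
    rw [hS, Finset.sum_filter]
    refine Finset.sum_congr rfl fun x _ => ?_
    by_cases h : C x = 0
    · rw [if_neg (not_not.2 h), h, zero_mul]
    · rw [if_pos h]
  have hSne : S.Nonempty := by
    by_contra h
    rw [Finset.not_nonempty_iff_eq_empty] at h
    obtain ⟨m, hm, hm'⟩ := (hw.and hpos).exists
    rw [hSsum, h, Finset.sum_empty] at hm
    have : w m = 0 := by exact_mod_cast hm
    exact absurd hm' (by rw [this]; exact lt_irrefl _)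
  obtain ⟨x0, hx0, hmax⟩ := Finset.exists_max_image S (fun x => ‖x‖) hSne
  have hSΛ : ∀ x ∈ S, x ∈ Λ := fun x hx => (Finset.mem_filter.1 hx).1
  have hSC : ∀ x ∈ S, C x ≠ 0 := fun x hx => (Finset.mem_filter.1 hx).2
  set ρ : ℝ := ‖x0‖ with hρdef
  have hρ : 0 < ρ := norm_pos_iff.2 (hΛ0 x0 (hSΛ x0 hx0))
  have hρc : (ρ : ℂ) ≠ 0 := by exact_mod_cast hρ.ne'
  set T : Finset ℂ := S.filter (fun x => ‖x‖ = ρ) with hT
  set D : Finset ℂ := T.image (fun x => x / ρ) with hDdef
  set C' : ℂ → ℂ := fun y => C (ρ * y) with hC'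
  have hback : ∀ x : ℂ, (ρ : ℂ) * (x / ρ) = x := fun x => mul_div_cancel₀ x hρc
  have hinj : Function.Injective (fun x : ℂ => x / (ρ : ℂ)) := by
    intro x y hxy
    have := congrArg (fun z => (ρ : ℂ) * z) hxy
    simpa only [hback] using this
  have hmemD : ∀ y, y ∈ D ↔ ((ρ : ℂ) * y ∈ S ∧ ‖(ρ : ℂ) * y‖ = ρ) := by
    intro y
    rw [hDdef, Finset.mem_image]
    constructor
    · rintro ⟨x, hx, rfl⟩
      rw [hback]
      exact Finset.mem_filter.1 hx
    · intro h
      exact ⟨ρ * y, Finset.mem_filter.2 h, mul_div_cancel_left₀ y hρc⟩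
  have hDnorm : ∀ y ∈ D, ‖y‖ = 1 := by
    intro y hy
    have := ((hmemD y).1 hy).2
    rw [norm_mul, Complex.norm_real, Real.norm_of_nonneg hρ.le] at this
    exact (mul_eq_left₀ hρ.ne').1 this
  have hDC : ∀ y ∈ D, C' y ≠ 0 := fun y hy => hSC _ ((hmemD y).1 hy).1
  have hDne : D.Nonempty := ⟨x0 / ρ, Finset.mem_image.2 ⟨x0, Finset.mem_filter.2 ⟨hx0, rfl⟩, rfl⟩⟩
  set G0 : ℕ → ℝ := fun m => w m / ρ ^ m with hG0def
  set G : ℕ → ℝ := fun m => max (G0 m) 0 with hGdef
  have hGpos : ∀ m, 0 ≤ G m := fun m => le_max_right _ _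
  have hGG0 : ∀ᶠ m in atTop, G m = G0 m := by
    filter_upwards [hpos] with m hm
    exact max_eq_left (div_nonneg hm.le (by positivity))
  have hDsum : ∀ m, ∑ y ∈ D, C' y * y ^ m = ∑ x ∈ T, C x * (x / ρ) ^ m := by
    intro m
    rw [hDdef, Finset.sum_image fun x _ y _ h => hinj h]
    refine Finset.sum_congr rfl fun x _ => ?_
    rw [hC']
    simp only
    rw [hback]
  have hG : Tendsto (fun m => (G m : ℂ) - ∑ x ∈ D, C' x * x ^ m) atTop (𝓝 0) := by
    have h1 : Tendsto (fun m : ℕ => ∑ x ∈ S.filter (fun x => ¬ ‖x‖ = ρ), C x * (x / ρ) ^ m) atTop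
        (𝓝 (∑ x ∈ S.filter (fun x => ¬ ‖x‖ = ρ), C x * 0)) := by
      refine tendsto_finsetSum _ fun x hx => Tendsto.const_mul _ ?_
      rw [Finset.mem_filter] at hx
      refine tendsto_pow_atTop_nhds_zero_of_norm_lt_one ?_
      rw [norm_div, Complex.norm_real, Real.norm_of_nonneg hρ.le, div_lt_one hρ]
      exact lt_of_le_of_ne (hmax x hx.1) hx.2
    simp only [mul_zero, Finset.sum_const_zero] at h1
    refine h1.congr' ?_
    filter_upwards [hw, hGG0] with m hm hm'
    rw [hDsum, hm']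
    have h2 : (G0 m : ℂ) = ∑ x ∈ S, C x * (x / ρ) ^ m := by
      rw [hG0def]
      simp only
      rw [Complex.ofReal_div, hm, hSsum, Finset.sum_div]
      refine Finset.sum_congr rfl fun x _ => ?_
      rw [Complex.ofReal_pow, div_pow]
      ring
    rw [h2, hT, ← Finset.sum_filter_add_sum_filter_not S (fun x => ‖x‖ = ρ)]
    ring
  obtain ⟨h1D, ⟨c0, hc0, hC1⟩, hconj⟩ := dominant D C' hDnorm hDC hDne G hGpos hG
  have hρS : (ρ : ℂ) ∈ S := by
    have := ((hmemD 1).1 h1D).1
    rwa [mul_one] at this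
  have hρΛ := hSΛ _ hρS
  have hρnorm : ‖(ρ : ℂ)‖ = ρ := by rw [Complex.norm_real, Real.norm_of_nonneg hρ.le]
  have hnzD : ∀ y ∈ D, nz ((ρ : ℂ) * y) = y := by
    intro y hy
    rw [nz_of_norm hρ ((hmemD y).1 hy).2, mul_div_cancel_left₀ _ hρc]
  have hΛD : ∀ y ∈ D, (ρ : ℂ) * y ∈ Λ := fun y hy => hSΛ _ ((hmemD y).1 hy).1
  -- torsion
  have htorD : ∀ x ∈ D, ∀ y ∈ D, x ≠ y → ¬ Tor (x * y⁻¹) := by
    intro x hx y hy hxy ht
    have h1 := htf 2 ![(ρ : ℂ) * x, (ρ : ℂ) * y] ![1, -1] (by
      intro i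
      fin_cases i
      · exact hΛD x hx
      · exact hΛD y hy)
    rw [Fin.prod_univ_two] at h1
    simp only [Matrix.cons_val_zero, Matrix.cons_val_one, zpow_one,
      zpow_neg] at h1
    rw [hnzD x hx, hnzD y hy] at h1
    have h2 := h1 ht
    have hy0 : y ≠ 0 := ne_of_norm (hDnorm y hy)
    exact hxy ((mul_inv_eq_one₀ hy0).1 h2)
  have hreal : ∀ x ∈ D, x.im = 0 → x = 1 := by
    intro x hx him
    by_contra hne
    have h1 := htorD x hx 1 h1D hne
    rw [inv_one, mul_one] at h1
    apply h1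
    refine ⟨2, two_pos, ?_⟩
    have h2 := hDnorm x hx
    have h3 : x = (x.re : ℂ) := by
      apply Complex.ext
      · rw [Complex.ofReal_re]
      · rw [Complex.ofReal_im, him]
    rw [h3, Complex.norm_real, Real.norm_eq_abs] at h2
    have h4 : x.re ^ 2 = 1 := by rw [← sq_abs, h2, one_pow]
    rw [h3, ← Complex.ofReal_pow, h4]; simp
  set P : Finset ℂ := D.filter (fun x => 0 < x.im) with hP
  have hcardP : P.card ≤ 4 := by
    have h1 := dominant_card D h1D (fun x hx => (hconj x hx).1) hreal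
    have h2 : D.card ≤ 10 := by
      rw [hDdef, Finset.card_image_of_injective _ hinj]
      refine (Finset.card_le_card ?_).trans (hcard ρ hρ)
      intro x hx
      rw [hT, Finset.mem_filter] at hx
      exact Finset.mem_filter.2 ⟨hSΛ x hx.1, hx.2⟩
    rw [hP]
    omega
  -- enumeration of the pairs
  set m := P.card with hm
  obtain ⟨e⟩ : Nonempty (Fin m ≃ P) := ⟨P.equivFin.symm⟩
  set γ : Fin m → ℂ := fun i => (e i : ℂ) with hγ
  set c : Fin m → ℂ := fun i => C' (e i : ℂ) with hc
  have heD : ∀ i, (e i : ℂ) ∈ D := fun i => (Finset.mem_filter.1 (e i).2).1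
  have heim : ∀ i, 0 < (e i : ℂ).im := fun i => (Finset.mem_filter.1 (e i).2).2
  have hcinv : ∀ i, (starRingEnd ℂ) (e i : ℂ) = (γ i)⁻¹ := fun i =>
    conj_of_norm (hDnorm _ (heD i))
  have hgood : Good γ := by
    refine ⟨fun i => hDnorm _ (heD i), fun i => ?_, fun i j hij => ?_, fun i j hij => ?_⟩
    · have h1 := htorD _ (heD i) 1 h1D (by
        intro h
        have := heim i
        rw [h] at this; simp at this)
      rwa [inv_one, mul_one] at h1
    · have h1 := htorD _ (heD i) _ (hconj _ (heD j)).1 (by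
        intro h
        have h2 := heim i
        have h3 := heim j
        rw [h, Complex.conj_im] at h2
        linarith)
      rwa [hcinv, inv_inv] at h1
    · exact htorD _ (heD i) _ (heD j) (by
        intro h
        exact hij (e.injective (Subtype.ext h)))
  have hcne : ∀ i, c i ≠ 0 := fun i => hDC _ (heD i)
  have hFd : ∀ n, ∑ x ∈ D, C' x * x ^ n = ((Fd c0 c (fun i => γ i ^ n) : ℝ) : ℂ) := by
    intro n
    rw [dominant_sum D C' h1D c0 hC1 hconj hreal n]
    congr 1
    unfold Fd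
    congr 1
    rw [← hP, ← Finset.sum_coe_sort P (fun x => 2 * (C' x * x ^ n).re)]
    exact (Equiv.sum_comp e (fun x : P => 2 * (C' (x : ℂ) * (x : ℂ) ^ n).re)).symm
  have hGF : Tendsto (fun n => G n - Fd c0 c (fun i => γ i ^ n)) atTop (𝓝 0) := by
    have h1 := (Complex.continuous_re.tendsto _).comp hG
    rw [Complex.zero_re] at h1
    refine h1.congr fun n => ?_
    simp only [Function.comp_apply]
    rw [hFd, ← Complex.ofReal_sub, Complex.ofReal_re]
  have hGF0 : Tendsto (fun n => G0 n - Fd c0 c (fun i => γ i ^ n)) atTop (𝓝 0) := by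
    refine hGF.congr' ?_
    filter_upwards [hGG0] with n hn
    rw [hn]
  have hAs : AsNonneg c0 c γ := by
    intro ε hε
    have h1 := Metric.tendsto_atTop.1 hGF ε hε
    obtain ⟨N, hN⟩ := h1
    refine ⟨N, fun n hn => ?_⟩
    have h2 := hN n hn
    rw [Real.dist_eq, sub_zero] at h2
    have h3 := (abs_lt.1 h2).2
    have h4 := hGpos n
    linarith
  have htfγ : ∀ g : Fin m → ℤ, Tor (chi g γ) → chi g γ = 1 := by
    intro g hg
    have h1 := htf m (fun i => (ρ : ℂ) * γ i) g (fun i => hΛD _ (heD i))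
    have h2 : ∏ i, nz ((ρ : ℂ) * γ i) ^ g i = chi g γ := by
      unfold chi
      refine Finset.prod_congr rfl fun i _ => ?_
      rw [hnzD _ (heD i)]
    rw [h2] at h1
    exact h1 hg
  refine ⟨ρ, hρ, ?_, ?_⟩
  · -- boundedness
    have hb : ∃ B : ℝ, ∀ n, |G0 n| ≤ B := by
      obtain ⟨B1, hB1⟩ := (hGF0.abs).bddAbove_range
      refine ⟨B1 + (|c0| + ∑ i, 2 * ‖c i‖), fun n => ?_⟩
      have h1 : |G0 n - Fd c0 c (fun i => γ i ^ n)| ≤ B1 := hB1 ⟨n, rfl⟩
      have h2 : |Fd c0 c (fun i => γ i ^ n)| ≤ |c0| + ∑ i, 2 * ‖c i‖ := by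
        unfold Fd
        refine (abs_add_le _ _).trans (add_le_add le_rfl ?_)
        refine (Finset.abs_sum_le_sum_abs _ _).trans (Finset.sum_le_sum fun i _ => ?_)
        rw [abs_mul, abs_two]
        have h3 := Complex.abs_re_le_norm (c i * γ i ^ n)
        rw [norm_mul, norm_pow, hgood.norm, one_pow, mul_one] at h3
        linarith
      calc |G0 n| = |(G0 n - Fd c0 c (fun i => γ i ^ n)) + Fd c0 c (fun i => γ i ^ n)| := by
            rw [sub_add_cancel]
        _ ≤ _ := (abs_add_le _ _).trans (add_le_add h1 h2)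
    obtain ⟨B, hB⟩ := hb
    refine ⟨B, fun n => ?_⟩
    have h1 := hB n
    have h2 : 0 < ρ ^ n := by positivity
    rw [hG0def] at h1
    simp only at h1
    rwa [abs_div, abs_of_pos h2, div_le_iff₀ h2] at h1
  · by_cases hPe : P = ∅
    · left
      have h1 : Tendsto G0 atTop (𝓝 c0) := by
        have h2 : ∀ n, Fd c0 c (fun i => γ i ^ n) = c0 := by
          intro n
          have h3 : m = 0 := by rw [hm, hPe, Finset.card_empty]
          unfold Fd
          have : IsEmpty (Fin m) := by rw [h3]; infer_instance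
          simp
        have h4 : Tendsto (fun n => (G0 n - Fd c0 c (fun i => γ i ^ n)) + c0) atTop
            (𝓝 (0 + c0)) := hGF0.add_const c0
        rw [zero_add] at h4
        refine h4.congr fun n => ?_
        rw [h2]; ring
      change liminf G0 atTop ≠ 0
      rw [h1.liminf_eq]
      exact hc0.ne'
    · right
      have hm0 : 0 < m := by
        rw [hm]
        exact Finset.card_pos.2 (Finset.nonempty_iff_ne_empty.2 hPe)
      rcases ten_torus H hcardP hm0 hc0 hgood hcne hAs htfγ with h | h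
      · left
        obtain ⟨g, g', hg, hg', hne, hfin⟩ := h
        have hmono : ∀ g : Fin m → ℤ, IsMono g → chi g γ ∈ D := by
          rintro g (rfl | ⟨i, rfl | rfl⟩)
          · have : chi (0 : Fin m → ℤ) γ = 1 := by simp [chi]
            rw [this]; exact h1D
          · rw [chi_single, zpow_one]
            exact heD i
          · have h2 := chi_smul γ hgood.ne (-1) (Pi.single i 1)
            rw [neg_one_smul, chi_single, zpow_one, zpow_neg_one] at h2
            rw [h2, ← hcinv]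
            exact (hconj _ (heD i)).1
        have hdiff : chi (g - g') γ = chi g γ / chi g' γ := by
          have h2 := chi_smul γ hgood.ne (-1) g'
          rw [neg_one_smul, zpow_neg_one] at h2
          rw [sub_eq_add_neg, chi_add γ hgood.ne, h2, div_eq_mul_inv]
        have hγne : chi g γ ≠ chi g' γ := by
          have him : ∀ i, (γ i).im ≠ 0 := fun i => (heim i).ne'
          have hinv : ∀ i, ((γ i)⁻¹).im < 0 := by
            intro i
            rw [← hcinv, Complex.conj_im]
            linarith [heim i]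
          have h1s : ∀ i, chi (Pi.single i 1) γ = γ i := fun i => by rw [chi_single, zpow_one]
          have h1n : ∀ i, chi (-Pi.single i 1) γ = (γ i)⁻¹ := fun i => by
            have h2 := chi_smul γ hgood.ne (-1) (Pi.single i 1)
            rwa [neg_one_smul, chi_single, zpow_one, zpow_neg_one] at h2
          have h0s : chi (0 : Fin m → ℤ) γ = 1 := by simp [chi]
          have hγinj : ∀ i j, γ i = γ j → i = j := fun i j h =>
            e.injective (Subtype.ext h)
          rcases hg with rfl | ⟨i, rfl | rfl⟩ <;> rcases hg' with rfl | ⟨j, rfl | rfl⟩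
          · exact absurd rfl hne
          · rw [h0s, h1s]
            intro h; apply him j; rw [← h]; simp
          · rw [h0s, h1n]
            intro h
            have := hinv j
            rw [← h] at this; simp at this
          · rw [h0s, h1s]
            intro h; apply him i; rw [h]; simp
          · rw [h1s, h1s]
            intro h
            exact hne (by rw [hγinj i j h])
          · rw [h1s, h1n]
            intro h
            have h3 := hinv j
            rw [← h] at h3
            linarith [heim i]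
          · rw [h0s, h1n]
            intro h
            have := hinv i
            rw [h] at this; simp at this
          · rw [h1s, h1n]
            intro h
            have h3 := hinv i
            rw [h] at h3
            linarith [heim j]
          · rw [h1n, h1n]
            intro h
            exact hne (by rw [hγinj i j (inv_injective h)])
        have hgD := hmono g hg
        have hgD' := hmono g' hg'
        refine ⟨ρ * chi g γ, hΛD _ hgD, ρ * chi g' γ, hΛD _ hgD', ((hmemD _).1 hgD).2,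
          ((hmemD _).1 hgD').2, fun h => hγne (mul_left_cancel₀ hρc h), fun κ => ?_⟩
        have h1 := contact_finite' hgood.norm (g - g') hfin G0 hGF0 κ
        rw [hdiff] at h1
        rw [mul_div_mul_left _ _ hρc]
        exact h1
      · right
        obtain ⟨α, β, X, Y, hα, hβ, hX, hY, hind, hsq⟩ := h
        refine ⟨α, β, X, Y, hα, hβ, hX, hY, hind, ?_⟩
        have h2 : Tendsto (fun n : ℕ => 2 * n) atTop atTop :=
          tendsto_id.const_mul_atTop' two_pos
        refine (hGF0.comp h2).congr fun n => ?_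
        rw [Function.comp_apply, hsq]

end Pool.Agent.F1
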