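import Mathlib
import Pool.Agent.F1.Converse

/-! Exceptional sequences are not narrow. -/

set_option autoImplicit false

open Filter Topology

namespace Pool.Agent.F1

open NarrowFew UltPos

theorem exc_not_narrow (v : ℕ → ℝ) (hpos : ∀ n, 0 < v n) (S : Set ℂ) (N J : ℕ) (hN : 0 < N)
    (hexc : ExcAt v N J) : ¬ IsNarrow v S := by
  rintro ⟨N1, hN1, hnar⟩
  obtain ⟨ρ, α, β, x, y, hρ, hα, hβ, hx, hy, hind, hlim⟩ := hexc
  set J1 := J % N1 with hJ1
  set q := J / N1 with hq
  have hJ : J = N1 * q + J1 := (Nat.div_add_mod J N1).symm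
  obtain ⟨ρ1, hρ1, ⟨B, hB⟩, hcase⟩ := hnar J1 (Nat.mod_lt _ hN1)
  set X := x ^ N1 with hX
  set Y := y ^ N1 with hY
  have hX1 : ‖X‖ = 1 := by rw [hX, norm_pow, hx, one_pow]
  have hY1 : ‖Y‖ = 1 := by rw [hY, norm_pow, hy, one_pow]
  have hind' : ∀ a b : ℤ, X ^ a * Y ^ b = 1 → a = 0 ∧ b = 0 := by
    intro a b h
    rw [hX, hY, ← zpow_natCast, ← zpow_natCast, ← zpow_mul, ← zpow_mul] at h
    obtain ⟨h1, h2⟩ := hind _ _ h
    have h3 : (N1 : ℤ) ≠ 0 := by exact_mod_cast hN1.ne'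
    exact ⟨(mul_eq_zero.1 h1).resolve_left h3, (mul_eq_zero.1 h2).resolve_left h3⟩
  set f : ℕ → ℝ := fun t => (α * X ^ t).re + (β * Y ^ t).re with hf
  set g : ℕ → ℝ := fun t => v (N * (N1 * t) + J) / ρ ^ (N1 * t) with hg
  have hgf : Tendsto (fun t => g t - f t ^ 2) atTop (𝓝 0) := by
    have h1 : Tendsto (fun t : ℕ => N1 * t) atTop atTop :=
      tendsto_atTop_mono (fun m => Nat.le_mul_of_pos_left m hN1) tendsto_id
    refine (hlim.comp h1).congr fun t => ?_
    rw [Function.comp_apply, pow_mul x, pow_mul y]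
  have hg0 : ∀ t, 0 < g t := fun t => div_pos (hpos _) (by positivity)
  have hidx : ∀ t, N * (N1 * t) + J = N1 * (N * t + q) + J1 := by
    intro t
    calc N * (N1 * t) + J = N * (N1 * t) + (N1 * q + J1) := by rw [← hJ]
      _ = _ := by ring
  set σ : ℝ := ρ ^ N1 / ρ1 ^ N with hσ
  have hσ0 : 0 < σ := by positivity
  have hid : ∀ t, v (N1 * (N * t + q) + J1) / ρ1 ^ (N * t + q) = g t * σ ^ t / ρ1 ^ q := by
    intro t
    rw [hg, hσ]
    simp only
    rw [hidx, pow_mul ρ, pow_add, pow_mul ρ1, div_pow]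
    have h1 : (ρ ^ N1) ^ t ≠ 0 := by positivity
    have h2 : (ρ1 ^ N) ^ t ≠ 0 := by positivity
    have h3 : ρ1 ^ q ≠ 0 := by positivity
    field_simp
  have hσ1 : σ ≤ 1 := by
    by_contra hlt
    push Not at hlt
    have h1 : Tendsto g atTop (𝓝 0) := by
      have h2 : Tendsto (fun t : ℕ => B * ρ1 ^ q * (σ⁻¹) ^ t) atTop (𝓝 (B * ρ1 ^ q * 0)) :=
        (tendsto_pow_atTop_nhds_zero_of_lt_one (by positivity) (inv_lt_one_of_one_lt₀ hlt)).const_mul
          _
      rw [mul_zero] at h2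
      refine squeeze_zero (fun t => (hg0 t).le) (fun t => ?_) h2
      have h3 := hB (N * t + q)
      rw [abs_of_pos (hpos _), ← div_le_iff₀ (by positivity), hid t, div_le_iff₀ (by positivity)]
        at h3
      rw [inv_pow, ← div_eq_mul_inv, le_div_iff₀ (by positivity)]
      exact h3
    have h2 : Tendsto (fun t => f t ^ 2) atTop (𝓝 0) := by
      have h3 := h1.sub hgf
      rw [sub_zero] at h3
      exact h3.congr fun t => by ring
    have hα1 : (‖α‖ : ℂ) ≠ 0 := by exact_mod_cast norm_ne_zero_iff.2 hα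
    have hβ1 : (‖β‖ : ℂ) ≠ 0 := by exact_mod_cast norm_ne_zero_iff.2 hβ
    obtain ⟨φ, hφ, h3, h4⟩ := exists_strictMono hX1 hY1 hind' (x := ‖α‖ / α) (y := ‖β‖ / β)
      (by rw [norm_div, Complex.norm_real, norm_norm, div_self (norm_ne_zero_iff.2 hα)])
      (by rw [norm_div, Complex.norm_real, norm_norm, div_self (norm_ne_zero_iff.2 hβ)])
    have h5 : Tendsto (fun k => f (φ k)) atTop (𝓝 (‖α‖ + ‖β‖)) := by
      have h6 := ((Complex.continuous_re.tendsto _).comp (h3.const_mul α)).add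
        ((Complex.continuous_re.tendsto _).comp (h4.const_mul β))
      rw [mul_div_cancel₀ _ hα, mul_div_cancel₀ _ hβ, Complex.ofReal_re, Complex.ofReal_re] at h6
      exact h6
    have h6 := tendsto_nhds_unique (h2.comp hφ.tendsto_atTop) (h5.pow 2)
    have h7 : 0 < ‖α‖ := norm_pos_iff.2 hα
    have h8 : 0 < ‖β‖ := norm_pos_iff.2 hβ
    nlinarith
  have key : ∀ φ : ℕ → ℕ, StrictMono φ → Tendsto (fun k => f (φ k)) atTop (𝓝 0) →
      Tendsto (fun k => v (N1 * (N * φ k + q) + J1) / ρ1 ^ (N * φ k + q)) atTop (𝓝 0) := by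
    intro φ hφ h1
    have h2 : Tendsto (fun k => g (φ k)) atTop (𝓝 0) := by
      have h3 := (hgf.comp hφ.tendsto_atTop).add (h1.pow 2)
      rw [zero_add, zero_pow two_ne_zero] at h3
      refine h3.congr fun k => ?_
      simp only [Function.comp_apply]
      ring
    have h3 : Tendsto (fun k => g (φ k) / ρ1 ^ q) atTop (𝓝 0) := by
      have := h2.div_const (ρ1 ^ q)
      rwa [zero_div] at this
    refine squeeze_zero (fun k => ?_) (fun k => ?_) h3
    · exact div_nonneg (hpos _).le (by positivity)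
    · rw [hid]
      gcongr
      exact mul_le_of_le_one_right (hg0 _).le (pow_le_one₀ hσ0.le hσ1)
  have hmono : ∀ φ : ℕ → ℕ, StrictMono φ → StrictMono (fun k => N * φ k + q) := by
    intro φ hφ a b hab
    have := Nat.mul_lt_mul_of_pos_left (hφ hab) hN
    simp only
    omega
  rcases hcase with hl | ⟨a, ha, b, hb, hab, hne, hfin⟩
  · -- the liminf is zero
    obtain ⟨Xz, Yz, hXz, hYz, h0⟩ : ∃ X Y : ℂ, ‖X‖ = 1 ∧ ‖Y‖ = 1 ∧
        (α * X).re + (β * Y).re = 0 := by
      have hα1 : (‖α‖ : ℂ) ≠ 0 := by exact_mod_cast norm_ne_zero_iff.2 hα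
      have hβ1 : (‖β‖ : ℂ) ≠ 0 := by exact_mod_cast norm_ne_zero_iff.2 hβ
      refine ⟨Complex.I * ‖α‖ / α, Complex.I * ‖β‖ / β, ?_, ?_, ?_⟩
      · rw [norm_div, norm_mul, Complex.norm_I, Complex.norm_real, norm_norm, one_mul,
          div_self (norm_ne_zero_iff.2 hα)]
      · rw [norm_div, norm_mul, Complex.norm_I, Complex.norm_real, norm_norm, one_mul,
          div_self (norm_ne_zero_iff.2 hβ)]
      · rw [mul_div_cancel₀ _ hα, mul_div_cancel₀ _ hβ]
        simp
    obtain ⟨φ, hφ, h3, h4⟩ := exists_strictMono hX1 hY1 hind' hXz hYz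
    have h5 : Tendsto (fun k => f (φ k)) atTop (𝓝 0) := by
      rw [← h0]
      exact ((Complex.continuous_re.tendsto _).comp (h3.const_mul α)).add
        ((Complex.continuous_re.tendsto _).comp (h4.const_mul β))
    have h6 := key φ hφ h5
    set u : ℕ → ℝ := fun s => v (N1 * s + J1) / ρ1 ^ s with hu
    have hu0 : ∀ s, 0 ≤ u s := fun s => div_nonneg (hpos _).le (by positivity)
    have hubd : IsBoundedUnder (· ≥ ·) atTop u := isBoundedUnder_of ⟨0, hu0⟩
    have hubd' : IsBoundedUnder (· ≤ ·) atTop u := isBoundedUnder_of ⟨B, fun s => by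
      have := hB s
      rw [abs_of_pos (hpos _)] at this
      change v (N1 * s + J1) / ρ1 ^ s ≤ B
      rwa [div_le_iff₀ (by positivity)]⟩
    have h7 : 0 ≤ liminf u atTop := le_liminf_of_le hubd'.isCoboundedUnder_ge
      (Eventually.of_forall hu0)
    rcases h7.lt_or_eq with h8 | h8
    · have h9 := eventually_lt_of_lt_liminf (half_lt_self h8) hubd
      have h10 := ((hmono φ hφ).tendsto_atTop).eventually h9
      have h11 : liminf u atTop / 2 ≤ 0 := ge_of_tendsto h6 (h10.mono fun k hk => hk.le)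
      linarith
    · exact hl h8.symm
  · have hb0 : b ≠ 0 := by
      intro h
      rw [h, norm_zero] at hab
      apply hne 1 one_pos
      rw [norm_eq_zero.1 hab, h]
    have ha0 : a ≠ 0 := by
      intro h
      rw [h, norm_zero] at hab
      exact hb0 (norm_eq_zero.1 hab.symm)
    have hnab : ‖a / b‖ = 1 := by rw [norm_div, hab, div_self (norm_ne_zero_iff.2 hb0)]
    have hinf := contact_infinite hα hβ hX1 hY1 hind' (θ := (a / b) ^ (N * N1))
      (κ := (a / b) ^ J) (by rw [norm_pow, hnab, one_pow]) (pow_ne_zero _ (div_ne_zero ha0 hb0))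
      (fun n hn h => by
        rw [← pow_mul, div_pow, div_eq_one_iff_eq (pow_ne_zero _ hb0)] at h
        exact hne _ (by positivity) h)
    refine hinf (hfin.subset ?_)
    rintro ζ ⟨φ, hφ, h1, h2⟩
    refine ⟨fun k => N * φ k + q, hmono φ hφ, key φ hφ h1, h2.congr fun k => ?_⟩
    rw [← pow_mul, ← pow_add, ← hidx]
    congr 1
    ring

end Pool.Agent.F1
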