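import Mathlib
import Pool.Agent.F1.Plane
import Pool.Agent.DD7719.Plane

/-! The classification in the plane. -/

set_option autoImplicit false

namespace Pool.Agent.F1

open DD7719.Plane (L ev ev_apply chi Z)

lemma chi_eq_mon (x y : ℂˣ) (m : ℤ × ℤ) : chi x y m = mon x y m := by
  simp [DD7719.Plane.chi, mon]

theorem planeThm : PlaneThm := by
  classical
  intro S C hSC hsym h0 hcard hne hpos
  let f : (ℤ × ℤ) →₀ ℂ := Finsupp.onFinset S C (fun m hm => (hSC m).2 hm)
  let F : L := .ofCoeff f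
  have hF : ∀ m, F.coeff m = C m := fun m => rfl
  have hsupp : F.coeff.support = S := by
    ext m
    rw [Finsupp.mem_support_iff, hF, hSC]
  have hev : ∀ x y : ℂˣ, ev x y F = ∑ m ∈ S, C m * mon x y m := by
    intro x y
    rw [ev_apply, hsupp]
    exact Finset.sum_congr rfl fun m _ => by rw [hF, chi_eq_mon]
  have hu : ∀ x : ℂ, ‖x‖ = 1 → ∃ u : ℂˣ, (u : ℂ) = x := fun x hx =>
    ⟨Units.mk0 x (ne_of_norm hx), rfl⟩
  rcases DD7719.Plane.narrow_or_exceptional (F := F) (fun m => by rw [hF, hF, hsym])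
    ((hSC 0).1 h0) (by rw [hsupp]; exact hcard) (fun x y hx hy => by
      rw [hev]; exact hpos x y hx hy)
    (by
      obtain ⟨m, hm, hm0⟩ := hne
      exact ⟨m, hm0, (hSC m).1 hm⟩) with h | h
  · left
    obtain ⟨m, m', hmm, hm, hm', hfin⟩ := h
    refine ⟨m, (hSC m).2 hm, m', (hSC m').2 hm', hmm, hfin.subset ?_⟩
    rintro w ⟨x, y, hx, hy, h1, rfl⟩
    obtain ⟨u, rfl⟩ := hu x hx
    obtain ⟨v, rfl⟩ := hu y hy
    refine ⟨(u, v), ⟨hx, hy, by rw [hev]; exact h1⟩, ?_⟩
    exact chi_eq_mon u v _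
  · right
    obtain ⟨a, b, al, be, hdet, hal, hbe, h1, h2, h3, h4, h5, h6⟩ := h
    refine ⟨a, b, al, be, hdet, hal, hbe, h1, h2, h3, h4, h5, fun m hm => ?_⟩
    have e : ∀ s t : ℤ, s ∈ Finset.Icc (-1 : ℤ) 1 → t ∈ Finset.Icc (-1 : ℤ) 1 → m = s • a + t • b →
        ∃ s ∈ Finset.Icc (-1 : ℤ) 1, ∃ t ∈ Finset.Icc (-1 : ℤ) 1, m = s • a + t • b :=
      fun s t hs ht h => ⟨s, hs, t, ht, h⟩
    rcases h6 m ((hSC m).1 hm) with h | h | h | h | h | h | h | h | h
    · exact e 0 0 (by decide) (by decide) (by rw [h]; module)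
    · exact e 1 0 (by decide) (by decide) (by rw [h]; module)
    · exact e (-1) 0 (by decide) (by decide) (by rw [h]; module)
    · exact e 0 1 (by decide) (by decide) (by rw [h]; module)
    · exact e 0 (-1) (by decide) (by decide) (by rw [h]; module)
    · exact e 1 1 (by decide) (by decide) (by rw [h]; module)
    · exact e (-1) (-1) (by decide) (by decide) (by rw [h]; module)
    · exact e 1 (-1) (by decide) (by decide) (by rw [h]; module)
    · exact e (-1) 1 (by decide) (by decide) (by rw [h]; module)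

end Pool.Agent.F1
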