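import Pool.Agent.F1.Seq
import Pool.Agent.F1.PlaneThm
import Pool.Agent.F1.ExcNarrow
import Pool.Agent.NarrowFew.Inst
import Pool.Agent.MX.Final
import Pool.Agent.DD7719.Lang
import Pool.Agent.DD7719.NLang
import Pool.Agent.DD7719.N3Lang

/-! Positivity of simple recurrences with at most ten roots on each circle: the positive instances
which are not exceptional are in `∀ℝ`. -/

set_option autoImplicit false

namespace Pool.Agent.UltPos

open Pool.Agent.PT Pool.Agent.AllR Pool.Agent.DD7719.M Pool.Agent.DD7719 Pool.Agent.MX Finset Filter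

/-- **Narrow or exceptional.** -/
theorem Inst.Simple.narrow_or_exceptional {I : Inst} (hI : I.Simple) (hP : I.Positive)
    (h10 : I.AtMostPerCircle 10) : I.Narrow ∨ I.Exceptional := by
  classical
  obtain ⟨v, hv, -⟩ := I.exists_unique_seq
  obtain ⟨l, c, ex, hrd, -, -⟩ := exists_rootData I.k I.aQ I.uQ
  have hex : ∀ i, i < I.k → ex i = 0 := by
    intro i hi
    by_contra hne
    have h1 := (I.simple_iff (fun t => ((I.aQ t : ℚ) : ℝ)) (fun t h => by
      simp only [Inst.aQ, h, dif_pos])).mp hI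
    exact h1 ⟨l i, fun e he => hrd.2.2.1 i hi e (by omega)⟩
  have hall := hrd.all (fun n => ((v n : ℚ) : ℝ)) (by
    intro n hn
    have := hv.1 ⟨n, hn⟩
    simp only [Inst.uQ, hn, dif_pos]
    exact_mod_cast this) (by
    intro n hn
    rw [hv.2 n hn, Finset.sum_range]
    push_cast
    apply Finset.sum_congr rfl
    intro t _
    simp only [Inst.aQ, t.2, dif_pos])
  have hroot : ∀ i : Fin I.k, l i ∈ I.rootSet := by
    intro i
    have h1 := hrd.root i i.2
    have h2 := congrArg (Polynomial.eval (l i)) I.charPoly_map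
    rw [Polynomial.eval_map, DD7719.M.cp, Polynomial.eval_sub, Polynomial.eval_pow,
      Polynomial.eval_X, Polynomial.eval_finsetSum, h1] at h2
    change Polynomial.aeval (l i) I.charPoly = 0
    rw [Polynomial.aeval_def, h2, sub_eq_zero]
    apply Finset.sum_congr rfl
    intro t _
    simp
  have hsub : Set.range (fun i : Fin I.k => l i) ⊆ I.rootSet := by
    rintro z ⟨i, rfl⟩
    exact hroot i
  have hsum : ∀ n, ∑ i : Fin I.k, c i * l i ^ n = ((((v n : ℚ) : ℝ)) : ℂ) := by
    intro n
    rw [← hall n]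
    apply Finset.sum_congr rfl
    intro i _
    rw [hex i i.2]
    simp
  obtain ⟨N, hN, htor⟩ := exists_torsion_exp (fun i : Fin I.k => nz (l i)) (fun i => F1.nz_ne _)
  have hcard : ∀ r : ℝ, 0 < r →
      {z | z ∈ Set.range (fun i : Fin I.k => l i) ∧ ‖z‖ = r}.ncard ≤ 10 := by
    intro r _
    have h1 : {z | z ∈ Set.range (fun i : Fin I.k => l i) ∧ ‖z‖ = r} ⊆
        {z : ℂ | z ∈ I.rootSet ∧ ‖z‖ = r} := fun z hz => ⟨hsub hz.1, hz.2⟩
    have h2 := (Set.encard_le_encard h1).trans (h10 r)
    exact ENat.toNat_le_of_le_natCast h2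
  have hcls := F1.narrow_or_exc F1.planeThm (fun i : Fin I.k => l i) (fun i => c i)
    (fun n => ((v n : ℚ) : ℝ)) hsum
    (Eventually.of_forall fun n => by exact_mod_cast hP v hv n) hcard N hN htor
  by_cases hE : ∃ J, ExcAt (fun n => ((v n : ℚ) : ℝ)) (N * 2) J
  · right
    obtain ⟨J, hJ⟩ := hE
    exact ⟨v, hv, N * 2, J, by positivity, hJ⟩
  · left
    push Not at hE
    refine ⟨v, hv, ?_⟩
    have h1 : IsNarrow (fun n => ((v n : ℚ) : ℝ)) (Set.range fun i : Fin I.k => l i) :=
      ⟨N, hN, fun J _ => (hcls J).resolve_right (hE J)⟩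
    exact h1.mono hsub

/-- For simple positive instances with at most ten roots on each circle, narrow means not
exceptional. -/
theorem Inst.Simple.narrow_iff_not_exceptional {I : Inst} (hI : I.Simple) (hP : I.Positive)
    (h10 : I.AtMostPerCircle 10) : I.Narrow ↔ ¬ I.Exceptional := by
  constructor
  · rintro ⟨v, hv, hn⟩ ⟨v', hv', N, J, hN, hexc⟩
    have hvv : v' = v := by
      obtain ⟨v0, hv0, huniq⟩ := I.exists_unique_seq
      rw [huniq v' hv', huniq v hv]
    subst hvv
    exact F1.exc_not_narrow _ (fun n => by exact_mod_cast hP v' hv' n) I.rootSet N J hN hexc hn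
  · intro h
    exact (hI.narrow_or_exceptional hP h10).resolve_right h

/-- **Positivity of simple recurrences with at most ten roots on each circle which are not
exceptional is in `∀ℝ`.** -/
theorem inForallR_ten :
    InForallR {w : List ISym | ∃ I : Inst, w = I.enc ∧ I.Simple ∧ I.AtMostPerCircle 10 ∧
      ¬ I.Exceptional ∧ I.Positive} := by
  obtain ⟨kk, fR, hkk, hfR, hk, hf⟩ := exists_coefR
  have hdbl := re_double kk fR hkk hfR
  have hmany := re_many (10 + 1) kk fR hkk hfR
  have hsimp : ∀ I : Inst, I.Simple ↔ ¬ DoubleRoot (kk I.enc) (fR I.enc) := by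
    intro I
    rw [hk]
    exact I.simple_iff _ (hf I)
  have hten : ∀ I : Inst, I.AtMostPerCircle 10 ↔ ¬ ManyRoots (10 + 1) (kk I.enc) (fR I.enc) := by
    intro I
    rw [hk]
    exact I.perCircle_iff 10 _ (hf I)
  have h := inForallR_narrow_and (fun x => DoubleRoot (kk x) (fR x) ∨
    ManyRoots (10 + 1) (kk x) (fR x)) (RE.or hdbl hmany)
  have hset : {w : List ISym | ∃ I : Inst, w = I.enc ∧ I.Simple ∧ I.AtMostPerCircle 10 ∧
      ¬ I.Exceptional ∧ I.Positive} =
      {w : List ISym | ∃ I : Inst, w = I.enc ∧ I.Positive ∧ I.Narrow ∧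
        ¬ (DoubleRoot (kk w) (fR w) ∨ ManyRoots (10 + 1) (kk w) (fR w))} := by
    ext w
    constructor
    · rintro ⟨I, rfl, hS, h10, hE, hP⟩
      exact ⟨I, rfl, hP, (hS.narrow_iff_not_exceptional hP h10).mpr hE,
        not_or.mpr ⟨(hsimp I).mp hS, (hten I).mp h10⟩⟩
    · rintro ⟨I, rfl, hP, hN, hE⟩
      obtain ⟨h1, h2⟩ := not_or.mp hE
      have hS := (hsimp I).mpr h1
      have h10 := (hten I).mpr h2
      exact ⟨I, rfl, hS, h10, (hS.narrow_iff_not_exceptional hP h10).mp hN, hP⟩
  rw [hset]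
  exact h

end Pool.Agent.UltPos
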