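import Mathlib
import Pool.Agent.F1.Core
import Pool.Agent.DD7719.GSound
import Pool.Agent.MX.Defs
import Pool.Agent.O9.Defs

/-! Simple sequences with at most ten roots on each circle: every residue class of a suitable
modulus is narrow or exceptional. -/

set_option autoImplicit false

open Filter Topology

namespace Pool.Agent.F1

open NarrowFew
open DD7719.M (nz norm_nz nz_mul_norm)

lemma nz_pow' (z : ℂ) (N : ℕ) : nz (z ^ N) = nz z ^ N := by
  rcases eq_or_ne z 0 with h | h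
  · rcases Nat.eq_zero_or_pos N with hN | hN
    · subst hN
      simp [DD7719.M.nz]
    · rw [h, zero_pow hN.ne']
      simp [DD7719.M.nz]
  · unfold DD7719.M.nz
    rw [if_neg h, if_neg (pow_ne_zero _ h), norm_pow, div_pow]
    push_cast
    rfl

lemma nz_ne (z : ℂ) : nz z ≠ 0 := ne_of_norm (norm_nz z)

/-- regrouping a product of powers -/
lemma regroup {k n : ℕ} (ν : Fin k → ℂ) (hν : ∀ i, ν i ≠ 0) (ι : Fin n → Fin k) (g : Fin n → ℤ) :
    ∏ i, ν (ι i) ^ g i = ∏ j, ν j ^ (∑ i ∈ Finset.univ.filter (fun i => ι i = j), g i) := by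
  classical
  rw [← Finset.prod_fiberwise_of_maps_to (s := Finset.univ) (t := Finset.univ) (g := ι)
    (fun i _ => Finset.mem_univ _)]
  refine Finset.prod_congr rfl fun j _ => ?_
  have : ∀ s : Finset (Fin n), (∀ i ∈ s, ι i = j) → ∏ i ∈ s, ν (ι i) ^ g i =
      ν j ^ (∑ i ∈ s, g i) := by
    intro s
    induction s using Finset.induction_on with
    | empty => simp
    | insert a s ha ih =>
      intro h
      rw [Finset.prod_insert ha, Finset.sum_insert ha, zpow_add₀ (hν j),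
        ih fun i hi => h i (Finset.mem_insert_of_mem hi), h a (Finset.mem_insert_self _ _)]
  exact this _ fun i hi => (Finset.mem_filter.1 hi).2

theorem narrow_or_exc (H : PlaneThm) {k : ℕ} (l c : Fin k → ℂ) (v : ℕ → ℝ)
    (hv : ∀ n, ∑ i, c i * l i ^ n = (v n : ℂ)) (hpos : ∀ᶠ n in atTop, 0 < v n)
    (hcard : ∀ r : ℝ, 0 < r → {z | z ∈ Set.range l ∧ ‖z‖ = r}.ncard ≤ 10)
    (N : ℕ) (hN : 0 < N)
    (htor : ∀ g : Fin k → ℤ, (∃ n : ℕ, 0 < n ∧ (∏ i, nz (l i) ^ g i) ^ n = 1) →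
      (∏ i, nz (l i) ^ g i) ^ N = 1) (J : ℕ) :
    UltPos.ClassNarrow v (Set.range l) N J ∨ UltPos.ExcAt v (N * 2) J := by
  classical
  set T : Finset (Fin k) := Finset.univ.filter (fun i => l i ≠ 0) with hT
  set Λ : Finset ℂ := T.image (fun i => l i ^ N) with hΛ
  set C : ℂ → ℂ := fun x => ∑ i ∈ T.filter (fun i => l i ^ N = x), c i * l i ^ J with hC
  have hTm : ∀ i, i ∈ T ↔ l i ≠ 0 := fun i => by rw [hT, Finset.mem_filter]; simp
  have hΛ0 : ∀ x ∈ Λ, x ≠ 0 := by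
    intro x hx
    obtain ⟨i, hi, rfl⟩ := Finset.mem_image.1 hx
    exact pow_ne_zero _ ((hTm i).1 hi)
  have hw : ∀ᶠ m in atTop, ((v (N * m + J) : ℝ) : ℂ) = ∑ x ∈ Λ, C x * x ^ m := by
    filter_upwards [eventually_gt_atTop 0] with m hm
    rw [← hv]
    have h1 : ∑ i, c i * l i ^ (N * m + J) = ∑ i ∈ T, c i * l i ^ (N * m + J) := by
      symm
      refine Finset.sum_subset (Finset.subset_univ _) fun i _ hi => ?_
      have h2 : l i = 0 := by
        by_contra h
        exact hi ((hTm i).2 h)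
      rw [h2, zero_pow (by positivity), mul_zero]
    rw [h1, ← Finset.sum_fiberwise_of_maps_to (s := T) (t := Λ) (g := fun i => l i ^ N)
      (fun i hi => Finset.mem_image_of_mem _ hi)]
    refine Finset.sum_congr rfl fun x _ => ?_
    rw [hC]
    simp only
    rw [Finset.sum_mul]
    refine Finset.sum_congr rfl fun i hi => ?_
    rw [Finset.mem_filter] at hi
    rw [← hi.2, pow_add, pow_mul]
    ring
  have hpos' : ∀ᶠ m in atTop, 0 < v (N * m + J) := by
    have h1 : Tendsto (fun m : ℕ => N * m + J) atTop atTop :=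
      tendsto_atTop_mono (fun m => (Nat.le_mul_of_pos_left m hN).trans (Nat.le_add_right _ _))
        tendsto_id
    exact h1.eventually hpos
  have htf : ∀ (n : ℕ) (e : Fin n → ℂ) (g : Fin n → ℤ), (∀ i, e i ∈ Λ) →
      Tor (∏ i, nz (e i) ^ g i) → ∏ i, nz (e i) ^ g i = 1 := by
    intro n e g he ht
    have hex : ∀ i, ∃ j, l j ^ N = e i := by
      intro i
      obtain ⟨j, -, hj⟩ := Finset.mem_image.1 (he i)
      exact ⟨j, hj⟩
    choose ι hι using hex
    have h1 : ∏ i, nz (e i) ^ g i = (∏ i, nz (l (ι i)) ^ g i) ^ N := by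
      rw [← Finset.prod_pow]
      refine Finset.prod_congr rfl fun i _ => ?_
      rw [← hι i, nz_pow', ← zpow_natCast, ← zpow_natCast, ← zpow_mul, ← zpow_mul, mul_comm]
    rw [h1] at ht ⊢
    rw [regroup (fun j => nz (l j)) (fun j => nz_ne _) ι g] at ht ⊢
    obtain ⟨q, hq, h2⟩ := ht
    exact htor _ ⟨N * q, Nat.mul_pos hN hq, by rw [pow_mul, h2]⟩
  have hcard' : ∀ r : ℝ, 0 < r → (Λ.filter (fun x => ‖x‖ = r)).card ≤ 10 := by
    intro r hr
    set s : ℝ := r ^ ((N : ℝ)⁻¹) with hs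
    have hs0 : 0 < s := Real.rpow_pos_of_pos hr _
    have hsN : s ^ N = r := Real.rpow_inv_natCast_pow hr.le hN.ne'
    have hnorm : ∀ i, ‖l i ^ N‖ = r → ‖l i‖ = s := by
      intro i h1
      rw [norm_pow, ← hsN] at h1
      exact (pow_left_inj₀ (norm_nonneg _) hs0.le hN.ne').1 h1
    have hfin : {z | z ∈ Set.range l ∧ ‖z‖ = s}.Finite :=
      (Set.finite_range l).subset fun z hz => hz.1
    have hsub : (↑(Λ.filter (fun x => ‖x‖ = r)) : Set ℂ) ⊆
        (fun z => z ^ N) '' {z | z ∈ Set.range l ∧ ‖z‖ = s} := by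
      intro x hx
      rw [Finset.mem_coe, Finset.mem_filter] at hx
      obtain ⟨i, hi, rfl⟩ := Finset.mem_image.1 hx.1
      exact ⟨l i, ⟨⟨i, rfl⟩, hnorm i hx.2⟩, rfl⟩
    rw [← Set.ncard_coe_finset]
    exact (Set.ncard_le_ncard hsub (hfin.image _)).trans
      ((Set.ncard_image_le hfin).trans (hcard s hs0))
  obtain ⟨ρ, hρ, hB, hcase⟩ := ten_core H Λ C hΛ0 (fun m => v (N * m + J)) hpos' hw htf hcard'
  rcases hcase with h | h | h
  · exact Or.inl ⟨ρ, hρ, hB, Or.inl h⟩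
  · left
    obtain ⟨x, hx, y, hy, hxρ, hyρ, hxy, hfin⟩ := h
    obtain ⟨i, hi, rfl⟩ := Finset.mem_image.1 hx
    obtain ⟨j, hj, rfl⟩ := Finset.mem_image.1 hy
    have hnij : ‖l i‖ = ‖l j‖ := by
      have h1 : ‖l i‖ ^ N = ‖l j‖ ^ N := by rw [← norm_pow, ← norm_pow, hxρ, hyρ]
      exact (pow_left_inj₀ (norm_nonneg _) (norm_nonneg _) hN.ne').1 h1
    refine ⟨ρ, hρ, hB, Or.inr ⟨l i, ⟨i, rfl⟩, l j, ⟨j, rfl⟩, hnij, ?_, ?_⟩⟩
    · intro n hn h
      apply hxy
      have hni : (‖l i‖ : ℂ) ≠ 0 := by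
        exact_mod_cast norm_ne_zero_iff.2 ((hTm i).1 hi)
      have hei : l i = ‖l i‖ * nz (l i) := (nz_mul_norm _).symm
      have hej : l j = ‖l i‖ * nz (l j) := by rw [hnij]; exact (nz_mul_norm _).symm
      have hz : (∏ t, nz (l (![i, j] t)) ^ (![1, -1] : Fin 2 → ℤ) t) = nz (l i) * (nz (l j))⁻¹ := by
        rw [Fin.prod_univ_two]
        simp only [Matrix.cons_val_zero, Matrix.cons_val_one, zpow_one,
          zpow_neg]
      have h1 := htor (fun j' => ∑ t ∈ Finset.univ.filter (fun t => (![i, j] : Fin 2 → Fin k) t = j'),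
        (![1, -1] : Fin 2 → ℤ) t) (by
          rw [← regroup (fun j => nz (l j)) (fun j => nz_ne _) ![i, j] ![1, -1], hz]
          refine ⟨n, hn, ?_⟩
          rw [mul_pow, inv_pow, mul_inv_eq_one₀ (pow_ne_zero _ (nz_ne _))]
          have h2 : (‖l i‖ : ℂ) ^ n * nz (l i) ^ n = (‖l i‖ : ℂ) ^ n * nz (l j) ^ n := by
            rw [← mul_pow, ← mul_pow, ← hei, ← hej, h]
          exact mul_left_cancel₀ (pow_ne_zero _ hni) h2)
      rw [← regroup (fun j => nz (l j)) (fun j => nz_ne _) ![i, j] ![1, -1], hz, mul_pow, inv_pow,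
        mul_inv_eq_one₀ (pow_ne_zero _ (nz_ne _))] at h1
      rw [hei, hej, mul_pow, mul_pow, h1]
    · refine (hfin ((l i / l j) ^ J)).subset ?_
      rintro ζ ⟨φ, hφ, h1, h2⟩
      refine ⟨φ, hφ, h1, h2.congr fun n => ?_⟩
      rw [← div_pow, ← pow_mul, ← pow_add, add_comm]
  · right
    obtain ⟨α, β, X, Y, hα, hβ, hX, hY, hind, hsq⟩ := h
    refine ⟨ρ ^ 2, α, β, X, Y, by positivity, hα, hβ, hX, hY, hind, hsq.congr fun m => ?_⟩
    rw [pow_mul, mul_assoc]

end Pool.Agent.F1
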